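import Pool.Agent.Mob.Stmts

/-!
# Metal-insulator transport transition: assembly
-/

set_option autoImplicit false
set_option linter.unusedSectionVars false

open MeasureTheory ProbabilityTheory Function

open scoped ENNReal BigOperators ComplexInnerProductSpace

noncomputable section

namespace Pool.Agent.Mob.H42

open Pool.Agent.Anderson Pool.Agent.Loc Pool.Agent.Helper54.Bal Pool.Agent.Mob

variable {d : ℕ}

theorem isOpen_LocSet (d : ℕ) (C₀ σ : ℝ) : IsOpen (LocSet d C₀ σ) := by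
  rw [Metric.isOpen_iff]
  rintro E ⟨h, hh, L, hL⟩
  refine ⟨h / 2, by positivity, ?_⟩
  intro F hF
  rw [Metric.mem_ball, Real.dist_eq, abs_lt] at hF
  refine ⟨h / 2, by positivity, L, fun F' hF' => hL F' ?_⟩
  rw [Set.mem_Icc] at hF' ⊢
  constructor <;> linarith [hF'.1, hF'.2, hF.1, hF.2]

/-! ### monotonicity of `TB` and `Sep` -/

theorem good_mono {V : Site d → ℝ} {Λ : Finset (Site d)} {E : ℝ} {x y : Site d} {s t : ℝ}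
    (h : Good V Λ E x y s) (hst : s ≤ t) : Good V Λ E x y t := ⟨h.1, h.2.trans_le hst⟩

theorem fgood_mono {V : Site d → ℝ} {L : ℕ} {x : Site d} {E μ μ' : ℝ} (h : FGood V L x E μ)
    (hμ : μ' ≤ μ) : FGood V L x E μ' := by
  intro u hu
  refine good_mono (h u hu) (Real.exp_le_exp.2 ?_)
  have : (0:ℝ) ≤ L := by positivity
  nlinarith

theorem tb_mono {V : Site d → ℝ} {I J : Set ℝ} {μ μ' : ℝ} {L₀ L₁ : ℕ} (h : TB V I μ L₀)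
    (hJ : J ⊆ I) (hμ : μ' ≤ μ) (hL : L₀ ≤ L₁) : TB V J μ' L₁ := by
  intro L hL' x hx y hy hxy E hE
  rcases h L (hL.trans hL') x hx y hy hxy E (hJ hE) with h | h
  · exact Or.inl (fgood_mono h hμ)
  · exact Or.inr (fgood_mono h hμ)

theorem tb_iUnion {V : Site d → ℝ} {ι : Type*} (s : Finset ι) {I : ι → Set ℝ} {μ : ι → ℝ}
    {μ' : ℝ} (hμ : ∀ i ∈ s, μ' ≤ μ i) (h : ∀ i ∈ s, ∃ L₀, TB V (I i) (μ i) L₀) :
    ∃ L₀, TB V (⋃ i ∈ s, I i) μ' L₀ := by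
  classical
  choose! L₀ hL₀ using h
  refine ⟨s.sup L₀, ?_⟩
  intro L hL x hx y hy hxy E hE
  simp only [Set.mem_iUnion, exists_prop] at hE
  obtain ⟨i, hi, hEi⟩ := hE
  exact tb_mono (hL₀ i hi) le_rfl (hμ i hi) (Finset.le_sup hi) L hL x hx y hy hxy E hEi

theorem sep_mono {V : Site d → ℝ} {I J : Set ℝ} {k₀ : ℕ} (h : Sep V I k₀) (hJ : J ⊆ I) :
    Sep V J k₀ := fun k hk E hE => h k hk E (hJ hE)

/-! ### countably many intervals -/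

/-- the criterion holds at one scale in the interval -/
def GI (d : ℕ) (C₀ σ : ℝ) (p : ℚ × ℚ) : Prop :=
  ∃ L : ℕ, ∀ F ∈ Set.Icc (p.1 : ℝ) (p.2 : ℝ), Crit d C₀ σ F L

theorem cover {C₀ σ : ℝ} {K : Set ℝ} (hK : IsCompact K) (hsub : K ⊆ LocSet d C₀ σ) :
    ∃ s : Finset (ℚ × ℚ), (∀ p ∈ s, GI d C₀ σ p) ∧
      K ⊆ ⋃ p ∈ s, Set.Icc (p.1 : ℝ) (p.2 : ℝ) := by
  classical
  have hex : ∀ E ∈ K, ∃ p : ℚ × ℚ, GI d C₀ σ p ∧ E ∈ Set.Ioo (p.1 : ℝ) (p.2 : ℝ) := by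
    intro E hE
    obtain ⟨h, hh, L, hL⟩ := hsub hE
    obtain ⟨q₁, h1, h2⟩ := exists_rat_btwn (show E - h < E by linarith)
    obtain ⟨q₂, h3, h4⟩ := exists_rat_btwn (show E < E + h by linarith)
    refine ⟨(q₁, q₂), ⟨L, fun F hF => hL F ?_⟩, h2, h3⟩
    rw [Set.mem_Icc] at hF ⊢
    simp only at hF
    constructor <;> linarith [hF.1, hF.2]
  choose! p hp1 hp2 using hex
  obtain ⟨t, ht, hcov⟩ := hK.elim_nhds_subcover (fun E => Set.Ioo ((p E).1 : ℝ) ((p E).2 : ℝ))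
    (fun E hE => isOpen_Ioo.mem_nhds (hp2 E hE))
  refine ⟨t.image p, ?_, ?_⟩
  · intro q hq
    obtain ⟨E, hE, rfl⟩ := Finset.mem_image.1 hq
    exact hp1 E (ht E hE)
  · intro E hE
    have := hcov hE
    simp only [Set.mem_iUnion, exists_prop] at this ⊢
    obtain ⟨F, hF, hEF⟩ := this
    exact ⟨p F, Finset.mem_image.2 ⟨F, hF, rfl⟩, Set.Ioo_subset_Icc_self hEF⟩

/-- the rates -/
theorem exists_rate (hBdc : BdcStmt) (hTbx : TbxStmt) (hd : 1 ≤ d) {C₀ σ : ℝ} (hC₀ : 0 < C₀)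
    (hσ : σ ≠ 0) (hB : BlkAt d C₀ σ) :
    ∃ μ : ℚ × ℚ → ℝ, (∀ p, 0 < μ p) ∧ ∀ p, GI d C₀ σ p →
      ∀ᵐ V ∂(PP d (gl σ)), ∃ L₀, TB V (Set.Icc (p.1 : ℝ) (p.2 : ℝ)) (μ p) L₀ := by
  have h : ∀ p : ℚ × ℚ, ∃ μ : ℝ, 0 < μ ∧ (GI d C₀ σ p →
      ∀ᵐ V ∂(PP d (gl σ)), ∃ L₀, TB V (Set.Icc (p.1 : ℝ) (p.2 : ℝ)) μ L₀) := by
    intro p
    by_cases hp : GI d C₀ σ p
    · obtain ⟨L, hL⟩ := hp
      obtain ⟨C, μ, hμ, hdec⟩ := hBdc d C₀ σ hd hC₀ hσ hB _ L hL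
      exact ⟨μ, hμ, fun _ => hTbx d (gl σ) _ _ C μ hd hμ hdec⟩
    · exact ⟨1, one_pos, fun h => absurd h hp⟩
  choose μ h1 h2 using h
  exact ⟨μ, h1, h2⟩

/-- localization on compact sets -/
theorem loc_compact (hDcy : DcyStmt) (hd : 1 ≤ d) {C₀ σ : ℝ} {μ : ℚ × ℚ → ℝ}
    (hμ : ∀ p, 0 < μ p) (hTB : ∀ p, GI d C₀ σ p →
      ∀ᵐ V ∂(PP d (gl σ)), ∃ L₀, TB V (Set.Icc (p.1 : ℝ) (p.2 : ℝ)) (μ p) L₀)
    {K : Set ℝ} (hK : IsCompact K) (hsub : K ⊆ LocSet d C₀ σ) :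
    ∃ m : ℝ, 0 < m ∧ ∀ᵐ V ∂(PP d (gl σ)), ∀ E ∈ K, ∀ ψ : Site d → ℂ,
      (∃ (K : ℝ) (k : ℕ), ∀ x, ‖ψ x‖ ≤ K * (1 + (sd 0 x : ℝ)) ^ k) →
      (∀ x, lap ψ x + (V x : ℂ) * ψ x = (E : ℂ) * ψ x) →
      ∃ K : ℝ, ∀ x, ‖ψ x‖ ≤ K * Real.exp (-m * sd 0 x) := by
  classical
  obtain ⟨s, hs, hcov⟩ := cover hK hsub
  obtain ⟨μ', hμ', hle⟩ : ∃ μ' : ℝ, 0 < μ' ∧ ∀ p ∈ s, μ' ≤ μ p := by
    rcases s.eq_empty_or_nonempty with h | h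
    · subst h; exact ⟨1, one_pos, fun p hp => absurd hp (Finset.notMem_empty p)⟩
    · obtain ⟨q, hq, hmin⟩ := s.exists_min_image μ h
      exact ⟨μ q, hμ q, hmin⟩
  refine ⟨μ' / 4, by positivity, ?_⟩
  have hall : ∀ᵐ V ∂(PP d (gl σ)), ∀ p ∈ s,
      ∃ L₀, TB V (Set.Icc (p.1 : ℝ) (p.2 : ℝ)) (μ p) L₀ := by
    exact (ae_ball_iff s.countable_toSet).2 fun p hp => hTB p (hs p hp)
  filter_upwards [hall] with V hV E hE ψ hpoly hψ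
  obtain ⟨L₀, hL₀⟩ := tb_iUnion s hle hV
  exact hDcy d V _ μ' L₀ hd hμ' hL₀ E (hcov hE) ψ hpoly hψ

/-- completeness, simultaneously for all compact intervals -/
theorem loc_complete (hSep : SepStmt) (hCmp : CmpStmt) (hd : 1 ≤ d) {C₀ σ : ℝ} (hσ : σ ≠ 0)
    {μ : ℚ × ℚ → ℝ} (hμ : ∀ p, 0 < μ p) (hTB : ∀ p, GI d C₀ σ p →
      ∀ᵐ V ∂(PP d (gl σ)), ∃ L₀, TB V (Set.Icc (p.1 : ℝ) (p.2 : ℝ)) (μ p) L₀) :
    ∀ᵐ V ∂(PP d (gl σ)), ∀ c r : ℝ, Set.Icc (c - r) (c + r) ⊆ LocSet d C₀ σ →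
      ∀ u w : L2 d, (∀ x, w x = lap u x + (V x : ℂ) * u x) →
        (∀ (E : ℝ) (ψ : L2 d), E ∈ Set.Icc (c - r) (c + r) → IsEigen V E ψ → ⟪ψ, u⟫ = 0) →
        r * ‖u‖ ≤ ‖w - (c : ℂ) • u‖ := by
  classical
  have hall : ∀ᵐ V ∂(PP d (gl σ)), ∀ p : ℚ × ℚ, GI d C₀ σ p →
      ∃ L₀, TB V (Set.Icc (p.1 : ℝ) (p.2 : ℝ)) (μ p) L₀ := by
    rw [ae_all_iff]
    intro p
    by_cases hp : GI d C₀ σ p
    · filter_upwards [hTB p hp] with V hV _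
      exact hV
    · exact Filter.Eventually.of_forall fun V h => absurd h hp
  have hsep : ∀ᵐ V ∂(PP d (gl σ)), ∀ N : ℕ, ∃ k₀, Sep V (Set.Icc (-(N : ℝ)) N) k₀ := by
    rw [ae_all_iff]
    intro N
    exact hSep d (gl σ) (1 / |σ|) (bddDens_gl hσ) _ _
  filter_upwards [hall, hsep] with V hV hS c r hsub u w hw horth
  obtain ⟨s, hs, hcov⟩ := cover isCompact_Icc hsub
  obtain ⟨μ', hμ', hle⟩ : ∃ μ' : ℝ, 0 < μ' ∧ ∀ p ∈ s, μ' ≤ μ p := by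
    rcases s.eq_empty_or_nonempty with h | h
    · subst h; exact ⟨1, one_pos, fun p hp => absurd hp (Finset.notMem_empty p)⟩
    · obtain ⟨q, hq, hmin⟩ := s.exists_min_image μ h
      exact ⟨μ q, hμ q, hmin⟩
  obtain ⟨L₀, hL₀⟩ := tb_iUnion s hle fun p hp => hV p (hs p hp)
  obtain ⟨N, hN⟩ := exists_nat_ge (|c| + |r|)
  obtain ⟨k₀, hk₀⟩ := hS N
  have hI : Set.Icc (c - r) (c + r) ⊆ Set.Icc (-(N : ℝ)) N := by
    intro E hE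
    rw [Set.mem_Icc] at hE ⊢
    have h1 := neg_abs_le c
    have h2 := le_abs_self c
    have h3 := neg_abs_le r
    have h4 := le_abs_self r
    constructor <;> linarith [hE.1, hE.2]
  exact hCmp d V c r μ' L₀ k₀ hd hμ' (tb_mono hL₀ hcov le_rfl le_rfl) (sep_mono hk₀ hI) u w hw horth

/-! ### transfer to an arbitrary probability space -/

section Space

universe u

variable {Ω : Type u} [MeasurableSpace Ω] {P : Measure Ω} [IsProbabilityMeasure P]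
  {ξ : Site d → Ω → ℝ}

theorem map_eq_PP (hm : ∀ y, Measurable (ξ y)) (hlaw : ∀ y, P.map (ξ y) = gaussianReal 0 1)
    (hind : iIndepFun ξ P) (σ : ℝ) :
    P.map (fun ω y => σ * ξ y ω) = PP d (gl σ) := by
  have hσm : Measurable fun r : ℝ => σ * r := measurable_const_mul σ
  have h1 : iIndepFun (fun x ω => σ * ξ x ω) P := hind.comp (fun _ r => σ * r) fun _ => hσm
  have h2 := h1.map_fun_eq_infinitePi_map fun x => (hm x).const_mul σ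
  have h3 : ∀ x : Site d, P.map (fun ω => σ * ξ x ω) = gl σ := by
    intro x
    unfold gl γ1
    rw [← hlaw x, Measure.map_map hσm (hm x)]
    rfl
  simp only [h3] at h2
  exact h2

theorem measurable_W (hm : ∀ y, Measurable (ξ y)) (σ : ℝ) :
    Measurable (fun ω (y : Site d) => σ * ξ y ω) :=
  measurable_pi_lambda _ fun x => (hm x).const_mul σ

theorem ae_transfer (hm : ∀ y, Measurable (ξ y)) (hlaw : ∀ y, P.map (ξ y) = gaussianReal 0 1)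
    (hind : iIndepFun ξ P) (σ : ℝ) {p : (Site d → ℝ) → Prop} (h : ∀ᵐ V ∂(PP d (gl σ)), p V) :
    ∀ᵐ ω ∂P, p (fun y => σ * ξ y ω) := by
  rw [← map_eq_PP hm hlaw hind σ] at h
  exact ae_of_ae_map (measurable_W hm σ).aemeasurable h

theorem lintegral_transfer (hm : ∀ y, Measurable (ξ y))
    (hlaw : ∀ y, P.map (ξ y) = gaussianReal 0 1) (hind : iIndepFun ξ P) (σ : ℝ)
    (f : (Site d → ℝ) → ℝ≥0∞) :
    ∫⁻ V, f V ∂(PP d (gl σ)) ≤ ∫⁻ ω, f (fun y => σ * ξ y ω) ∂P := by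
  rw [← map_eq_PP hm hlaw hind σ]
  exact lintegral_map_le _ _

end Space

/-! ### the real scale -/

/-- the statement of the theorem -/
def MainStmt.{u} : Prop :=
  ∀ d : ℕ, 1 ≤ d → ∃ σ₁ C : ℝ, 0 < σ₁ ∧ 0 < C ∧ ∀ σ : ℝ, σ ≠ 0 →
    ∃ Loc : Set ℝ, IsOpen Loc ∧ (σ₁ ≤ |σ| → Loc = Set.univ) ∧
      (3 ≤ d → ∀ E : ℝ,
        2 * d + watson d * σ ^ 2 + C * |σ| ^ (2 + 1 / (24 * d : ℝ)) < |E| → E ∈ Loc) ∧
      ∀ (Ω : Type u) [MeasurableSpace Ω] (P : Measure Ω) [IsProbabilityMeasure P]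
        (ξ : Site d → Ω → ℝ), (∀ y, Measurable (ξ y)) →
        (∀ y, P.map (ξ y) = gaussianReal 0 1) → iIndepFun ξ P →
        (∀ K : Set ℝ, IsCompact K → K ⊆ Loc → ∃ m : ℝ, 0 < m ∧ ∀ᵐ ω ∂P, ∀ E ∈ K,
          ∀ ψ : Site d → ℂ,
            (∃ (B : ℝ) (k : ℕ), ∀ x, ‖ψ x‖ ≤ B * (1 + (sd 0 x : ℝ)) ^ k) →
            (∀ x, lap ψ x + ((σ * ξ x ω : ℝ) : ℂ) * ψ x = (E : ℂ) * ψ x) →
            ∃ B : ℝ, ∀ x, ‖ψ x‖ ≤ B * Real.exp (-m * sd 0 x)) ∧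
        (∀ᵐ ω ∂P, ∀ c r : ℝ, Set.Icc (c - r) (c + r) ⊆ Loc → ∀ u w : L2 d,
          (∀ x, w x = lap u x + ((σ * ξ x ω : ℝ) : ℂ) * u x) →
          (∀ (E : ℝ) (ψ : L2 d), E ∈ Set.Icc (c - r) (c + r) →
            IsEigen (fun x => σ * ξ x ω) E ψ → ⟪ψ, u⟫ = 0) →
          r * ‖u‖ ≤ ‖w - (c : ℂ) • u‖) ∧
        (∀ a b δ : ℝ, ¬ Set.Ioo a b ⊆ Loc → 0 < δ → δ ≤ 1 → ∃ T₀ : ℝ, ∀ T : ℝ, T₀ ≤ T →
          ENNReal.ofReal (T ^ (-400 : ℝ)) ≤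
            ∫⁻ ω, spread (fun x => σ * ξ x ω) T (T ^ (1 / ((d : ℝ) + δ))) (Set.Ioo a b) ∂P) ∧
        (Loc ≠ Set.univ → ∀ ψ : Ω → ℝ → L2 d,
          (∀ ω, IsEvolution (fun x => σ * ξ x ω) (ψ ω)) → ∀ δ p : ℝ, 0 < δ → δ ≤ 1 → 0 ≤ p →
          ∃ T₀ : ℝ, ∀ T : ℝ, T₀ ≤ T →
            ENNReal.ofReal (T ^ (p / ((d : ℝ) + δ) - 401)) ≤ ∫⁻ ω, avgMoment (ψ ω) T p ∂P)

theorem main (hIni : IniStmt) (hBlk : BlkStmt) (hLrg : LrgStmt) (hEdg : EdgStmt)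
    (hBdc : BdcStmt) (hTbx : TbxStmt) (hSep : SepStmt) (hDcy : DcyStmt) (hCmp : CmpStmt)
    (hTim : TimStmt) : MainStmt := by
  intro d hd
  obtain ⟨C₀, hC₀, hB⟩ := hBlk d hd
  obtain ⟨σ₁, hσ₁, hL⟩ := hLrg d hd C₀ hC₀
  obtain ⟨C, hC, hE⟩ : ∃ C : ℝ, 0 < C ∧ (3 ≤ d → ∀ C₀ σ : ℝ, 0 < C₀ → σ ≠ 0 →
      ∃ L : ℕ, ∀ E : ℝ,
      2 * d + watson d * σ ^ 2 + C * |σ| ^ (2 + 1 / (24 * d : ℝ)) ≤ |E| → Crit d C₀ σ E L) := by
    by_cases h3 : 3 ≤ d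
    · obtain ⟨C, hC, h⟩ := hEdg d h3
      exact ⟨C, hC, fun _ => h⟩
    · exact ⟨1, one_pos, fun h => absurd h h3⟩
  refine ⟨σ₁, C, hσ₁, hC, fun σ hσ => ⟨LocSet d C₀ σ, isOpen_LocSet d C₀ σ, ?_, ?_, ?_⟩⟩
  · intro h
    ext E
    simp only [Set.mem_univ, iff_true]
    exact ⟨1, one_pos, 0, fun F _ => hL σ h F⟩
  · intro h3 E hEE
    obtain ⟨L, hLE⟩ := hE h3 C₀ σ hC₀ hσ
    set e := 2 * d + watson d * σ ^ 2 + C * |σ| ^ (2 + 1 / (24 * d : ℝ)) with he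
    refine ⟨|E| - e, by linarith, L, fun F hF => hLE F ?_⟩
    rw [Set.mem_Icc] at hF
    have h1 : |E| - |F| ≤ |E - F| := abs_sub_abs_le_abs_sub E F
    have h2 : |E - F| ≤ |E| - e := by
      rw [abs_le]
      constructor <;> linarith [hF.1, hF.2]
    linarith
  intro Ω _ P _ ξ hm hlaw hind
  obtain ⟨μ, hμ, hTB⟩ := exists_rate hBdc hTbx hd hC₀ hσ (hB σ hσ)
  have hmetal : ∀ a b δ : ℝ, ¬ Set.Ioo a b ⊆ LocSet d C₀ σ → 0 < δ → δ ≤ 1 →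
      ∃ T₀ : ℝ, 1 ≤ T₀ ∧ ∀ T : ℝ, T₀ ≤ T → ENNReal.ofReal (T ^ (-400 : ℝ)) ≤
        ∫⁻ ω, spread (fun x => σ * ξ x ω) T (T ^ (1 / ((d : ℝ) + δ))) (Set.Ioo a b) ∂P := by
    intro a b δ hab hδ hδ1
    obtain ⟨E₀, hE₀, hE₀'⟩ := Set.not_subset.1 hab
    obtain ⟨T₀, hT₀, h⟩ := hIni d hd C₀ σ hC₀ hσ δ a b E₀ hδ hδ1 hE₀.1 hE₀.2
    refine ⟨T₀, hT₀, fun T hT => ?_⟩
    by_contra hcon
    rw [not_le] at hcon
    apply hE₀'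
    exact h T hT (lt_of_le_of_lt (lintegral_transfer hm hlaw hind σ
      (fun V => spread V T (T ^ (1 / ((d : ℝ) + δ))) (Set.Ioo a b))) hcon)
  refine ⟨?_, ?_, ?_, ?_⟩
  · intro K hK hKL
    obtain ⟨m, hm0, h⟩ := loc_compact hDcy hd hμ hTB hK hKL
    exact ⟨m, hm0, ae_transfer hm hlaw hind σ h⟩
  · exact ae_transfer hm hlaw hind σ (loc_complete hSep hCmp hd hσ hμ hTB)
  · intro a b δ hab hδ hδ1
    obtain ⟨T₀, _, h⟩ := hmetal a b δ hab hδ hδ1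
    exact ⟨T₀, h⟩
  · intro hne ψ hψ δ p hδ hδ1 hp
    obtain ⟨E₀, hE₀⟩ : ∃ E₀, E₀ ∉ LocSet d C₀ σ := by
      by_contra hcon
      push Not at hcon
      exact hne (Set.eq_univ_of_forall hcon)
    obtain ⟨T₀, hT₀, h⟩ := hmetal (E₀ - 1) (E₀ + 1) δ
      (fun hsub => hE₀ (hsub ⟨by linarith, by linarith⟩)) hδ hδ1
    refine ⟨max T₀ Real.pi, fun T hT => ?_⟩
    have hT1 : T₀ ≤ T := (le_max_left _ _).trans hT
    have hT2 : Real.pi ≤ T := (le_max_right _ _).trans hT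
    have hTpos : 0 < T := by linarith
    have hT1' : 1 ≤ T := hT₀.trans hT1
    set R := T ^ (1 / ((d : ℝ) + δ)) with hR
    have hdδ : 0 < (d : ℝ) + δ := by positivity
    have hR1 : 1 ≤ R := Real.one_le_rpow hT1' (by positivity)
    have h1 : ENNReal.ofReal (T ^ (p / ((d : ℝ) + δ) - 401)) ≤
        ENNReal.ofReal (R ^ p / Real.pi) * ENNReal.ofReal (T ^ (-400 : ℝ)) := by
      rw [← ENNReal.ofReal_mul (by positivity)]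
      apply ENNReal.ofReal_le_ofReal
      have e1 : R ^ p = T ^ (p / ((d : ℝ) + δ)) := by
        rw [hR, ← Real.rpow_mul hTpos.le]
        congr 1
        ring
      have e2 : T ^ (p / ((d : ℝ) + δ) - 401) =
          T ^ (p / ((d : ℝ) + δ)) * T ^ (-400 : ℝ) / T := by
        rw [← Real.rpow_add hTpos]
        nth_rewrite 3 [← Real.rpow_one T]
        rw [← Real.rpow_sub hTpos]
        congr 1
        ring
      rw [e1, e2, div_mul_eq_mul_div]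
      exact div_le_div_of_nonneg_left (by positivity) Real.pi_pos hT2
    refine h1.trans ?_
    calc ENNReal.ofReal (R ^ p / Real.pi) * ENNReal.ofReal (T ^ (-400 : ℝ))
        ≤ ENNReal.ofReal (R ^ p / Real.pi) *
          ∫⁻ ω, spread (fun x => σ * ξ x ω) T R (Set.Ioo (E₀ - 1) (E₀ + 1)) ∂P := by
          gcongr
          exact h T hT1
      _ = ∫⁻ ω, ENNReal.ofReal (R ^ p / Real.pi) *
          spread (fun x => σ * ξ x ω) T R (Set.Ioo (E₀ - 1) (E₀ + 1)) ∂P :=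
          (lintegral_const_mul' _ _ ENNReal.ofReal_ne_top).symm
      _ ≤ _ := lintegral_mono fun ω => hTim d _ (ψ ω) (hψ ω) T p R hTpos hp hR1 _ _

end Pool.Agent.Mob.H42
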