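import Pool.Agent.Mob.Stmts

/-!
# Module HOL: from the height `η` down to the real axis
-/

set_option autoImplicit false

open scoped ENNReal BigOperators

noncomputable section

namespace Pool.Agent.Mob.H42

open Pool.Agent.Anderson Pool.Agent.Loc Pool.Agent.Helper54.Bal Pool.Agent.Mob

/-- the weight -/
def wt (E r M : ℝ) (z : ℂ) : ℂ :=
  Complex.exp (-(M : ℂ) * ((z - E) ^ 2 / (r : ℂ) ^ 2 + 4 * Complex.I * (z - E) / r))

theorem norm_wt (E r M : ℝ) (hr : r ≠ 0) (z : ℂ) :
    ‖wt E r M z‖ = Real.exp (-M * (((z.re - E) / r) ^ 2 - (z.im / r) ^ 2 - 4 * (z.im / r))) := by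
  unfold wt
  rw [Complex.norm_exp]
  congr 1
  have e1 : z = (z.re : ℂ) + (z.im : ℂ) * Complex.I := (Complex.re_add_im z).symm
  have hrc : (r : ℂ) ≠ 0 := by exact_mod_cast hr
  have e2 : -(M : ℂ) * ((z - E) ^ 2 / (r : ℂ) ^ 2 + 4 * Complex.I * (z - E) / r) =
      ((-M * (((z.re - E) / r) ^ 2 - (z.im / r) ^ 2 - 4 * (z.im / r)) : ℝ) : ℂ) +
      ((-M * (2 * ((z.re - E) / r) * (z.im / r) + 4 * ((z.re - E) / r)) : ℝ) : ℂ) *
        Complex.I := by
    conv_lhs => rw [e1]
    push_cast
    field_simp
    ring_nf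
    simp only [Complex.I_sq]
    ring
  rw [e2, Complex.add_re, Complex.ofReal_re, Complex.mul_re, Complex.ofReal_re, Complex.ofReal_im,
    Complex.I_re, Complex.I_im]
  ring

theorem exp_le_three {t : ℝ} (ht : t ≤ 1 + 1 / 32) : Real.exp t ≤ 3 := by
  have h1 : Real.exp t ≤ Real.exp 1 * Real.exp (1 / 32) := by
    rw [← Real.exp_add]
    exact Real.exp_le_exp.2 ht
  have h2 : Real.exp 1 < 2.7182818286 := Real.exp_one_lt_d9
  have h3 : Real.exp (1 / 32) ≤ 32 / 31 := by
    have h4 : 1 - 1 / 32 ≤ Real.exp (-(1 / 32 : ℝ)) := by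
      have := Real.add_one_le_exp (-(1 / 32 : ℝ))
      linarith
    have h5 : Real.exp (1 / 32 : ℝ) * Real.exp (-(1 / 32 : ℝ)) = 1 := by
      rw [← Real.exp_add]; norm_num
    have h6 : 0 < Real.exp (1 / 32 : ℝ) := Real.exp_pos _
    nlinarith
  have h7 : 0 < Real.exp 1 := Real.exp_pos _
  have h8 : 0 < Real.exp (1 / 32 : ℝ) := Real.exp_pos _
  nlinarith

theorem hol (hgzb : GzbStmt) : HolStmt := by
  intro d V Λ x y E r η ε hη hr hε hno hF
  have hr0 : 0 < r := by linarith
  have hrne : r ≠ 0 := hr0.ne'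
  obtain ⟨g1, -, g3⟩ := hgzb d V Λ x y
  set M : ℝ := r / (4 * η) with hM
  have hM0 : 0 < M := by positivity
  have hMη : M * (4 * (η / r)) = 1 := by
    rw [hM]; field_simp
  have hηr : η / r ≤ 1 / 8 := by
    rw [div_le_iff₀ hr0]; linarith
  have hηr0 : 0 < η / r := by positivity
  have hMη2 : M * (η / r) ^ 2 ≤ 1 / 32 := by
    have : M * (η / r) ^ 2 = (M * (4 * (η / r))) * ((η / r) / 4) := by ring
    rw [this, hMη]
    linarith
  set C : ℝ := max (3 * ε) (3 / r * Real.exp (-r / (4 * η))) with hC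
  set U : Set ℂ := Set.Ioo (E - r) (E + r) ×ℂ Set.Ioo (η - r) η with hU
  have hcl : closure U = Set.Icc (E - r) (E + r) ×ℂ Set.Icc (η - r) η := by
    rw [hU, Complex.closure_reProdIm, closure_Ioo (by linarith), closure_Ioo (by linarith)]
  have hmem : ∀ z ∈ closure U, |z.re - E| ≤ r ∧ η - r ≤ z.im ∧ z.im ≤ η := by
    intro z hz
    rw [hcl, Complex.mem_reProdIm, Set.mem_Icc, Set.mem_Icc] at hz
    refine ⟨abs_le.2 ⟨by linarith [hz.1.1], by linarith [hz.1.2]⟩, hz.2.1, hz.2.2⟩
  have hdiff : DiffContOnCl ℂ (fun z => gz V Λ z x y * wt E r M z) U := by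
    apply DifferentiableOn.diffContOnCl
    intro z hz
    have h1 := (g3 E r hr0 hno z (hmem z hz).1).2.2
    have h2 : DifferentiableAt ℂ (wt E r M) z := by
      unfold wt
      fun_prop
    exact (h1.mul h2).differentiableWithinAt
  have hbdd : Bornology.IsBounded U := by
    rw [hU]
    exact (Metric.isBounded_Ioo _ _).reProdIm (Metric.isBounded_Ioo _ _)
  have hopen : IsOpen U := isOpen_Ioo.reProdIm isOpen_Ioo
  have hfr : ∀ z ∈ frontier U, ‖gz V Λ z x y * wt E r M z‖ ≤ C := by
    intro z hz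
    rw [hopen.frontier_eq] at hz
    obtain ⟨hz1, hz2⟩ := hz
    obtain ⟨m1, m2, m3⟩ := hmem z hz1
    rw [norm_mul, norm_wt E r M hrne]
    set s : ℝ := (z.re - E) / r with hs
    set t : ℝ := z.im / r with ht
    have ht1 : t ≤ η / r := div_le_div_of_nonneg_right m3 hr0.le
    have ht2 : η / r - 1 ≤ t := by
      rw [ht, div_sub_one hrne]
      exact div_le_div_of_nonneg_right m2 hr0.le
    by_cases htop : z.im = η
    · -- the top side
      refine le_trans ?_ (le_max_left _ _)
      have e1 : z = zz η z.re := by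
        unfold zz
        rw [← htop]
        exact (Complex.re_add_im z).symm
      have h1 : ‖gz V Λ z x y‖ ≤ ε := by
        rw [e1]
        exact hF z.re m1
      have h2 : Real.exp (-M * (s ^ 2 - t ^ 2 - 4 * t)) ≤ 3 := by
        apply exp_le_three
        have e2 : t = η / r := by rw [ht, htop]
        rw [e2]
        have : 0 ≤ M * s ^ 2 := by positivity
        nlinarith
      calc ‖gz V Λ z x y‖ * Real.exp (-M * (s ^ 2 - t ^ 2 - 4 * t)) ≤ ε * 3 :=
            mul_le_mul h1 h2 (Real.exp_pos _).le hε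
        _ = 3 * ε := by ring
    · -- the other sides
      refine le_trans ?_ (le_max_right _ _)
      have h1 := (g3 E r hr0 hno z m1).2.1
      have h2 : -M * (s ^ 2 - t ^ 2 - 4 * t) ≤ -M + (1 + 1 / 32) := by
        by_cases hbot : z.im = η - r
        · have e2 : t = η / r - 1 := by rw [ht, hbot, sub_div, div_self hrne]
          have h3 : 1 ≤ -t ^ 2 - 4 * t := by
            rw [e2]
            nlinarith
          have h4 : 0 ≤ M * s ^ 2 := by positivity
          nlinarith
        · have hs1 : s ^ 2 = 1 := by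
            have h3 : z.im ∈ Set.Ioo (η - r) η :=
              ⟨lt_of_le_of_ne m2 (Ne.symm hbot), lt_of_le_of_ne m3 htop⟩
            have h4 : ¬ (z.re ∈ Set.Ioo (E - r) (E + r)) := by
              intro h5
              exact hz2 (by rw [hU, Complex.mem_reProdIm]; exact ⟨h5, h3⟩)
            have h6 : |z.re - E| = r := by
              apply le_antisymm m1
              by_contra hcon
              rw [not_le] at hcon
              apply h4
              rw [abs_lt] at hcon
              exact ⟨by linarith [hcon.1], by linarith [hcon.2]⟩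
            rw [hs, div_pow, ← sq_abs, h6]
            field_simp
          rw [hs1]
          rcases le_total t 0 with h0 | h0
          · have h5 : 0 ≤ -t ^ 2 - 4 * t := by nlinarith
            nlinarith
          · have h5 : M * t ^ 2 ≤ M * (η / r) ^ 2 :=
              mul_le_mul_of_nonneg_left (pow_le_pow_left₀ h0 ht1 2) hM0.le
            have h6 : M * (4 * t) ≤ M * (4 * (η / r)) :=
              mul_le_mul_of_nonneg_left (by linarith) hM0.le
            nlinarith
      have h3 : Real.exp (-M * (s ^ 2 - t ^ 2 - 4 * t)) ≤ 3 * Real.exp (-r / (4 * η)) := by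
        have e3 : -r / (4 * η) = -M := by rw [hM, neg_div]
        rw [e3]
        calc _ ≤ Real.exp (-M + (1 + 1 / 32)) := Real.exp_le_exp.2 h2
          _ = Real.exp (1 + 1 / 32) * Real.exp (-M) := by rw [← Real.exp_add]; congr 1; ring
          _ ≤ _ := mul_le_mul_of_nonneg_right (exp_le_three le_rfl) (Real.exp_pos _).le
      calc _ ≤ r⁻¹ * (3 * Real.exp (-r / (4 * η))) :=
            mul_le_mul h1 h3 (Real.exp_pos _).le (by positivity)
        _ = _ := by ring
  have hE : (E : ℂ) ∈ closure U := by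
    rw [hcl, Complex.mem_reProdIm, Complex.ofReal_re, Complex.ofReal_im]
    constructor <;> constructor <;> linarith
  have hfin := Complex.norm_le_of_forall_mem_frontier_norm_le hbdd hdiff hfr hE
  rw [norm_mul, norm_wt E r M hrne, g1 E, Complex.norm_real, Real.norm_eq_abs, Complex.ofReal_re,
    Complex.ofReal_im] at hfin
  simpa using hfin

end Pool.Agent.Mob.H42
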