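import Pool.Agent.Mob.Stmts3
import Pool.Agent.Helper42_Mob.Hol
import Pool.Agent.Helper11_Mob.Gzb
import Pool.Agent.Helper48_Mob.Dcy

/-!
# Module DLB: the Green function at positive height, if at each energy one of two cubes is good
-/

set_option autoImplicit false

open scoped ENNReal BigOperators

noncomputable section

namespace Pool.Agent.Mob.H42

open Pool.Agent.Anderson Pool.Agent.Loc Pool.Agent.Helper54.Bal Pool.Agent.Mob

/-- the maximum principle with a weight -/
theorem max_rect {f : ℂ → ℂ} {E r η ε B : ℝ} (hη : 0 < η) (hr : 8 * η ≤ r) (hε : 0 ≤ ε)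
    (hB : 0 ≤ B)
    (hf : ∀ z : ℂ, |z.re - E| ≤ r → η - r ≤ z.im → z.im ≤ η → DifferentiableAt ℂ f z)
    (hf1 : ∀ z : ℂ, |z.re - E| ≤ r → z.im = η → ‖f z‖ ≤ ε)
    (hf2 : ∀ z : ℂ, |z.re - E| ≤ r → η - r ≤ z.im → z.im ≤ η → ‖f z‖ ≤ B) :
    ‖f E‖ ≤ max (3 * ε) (3 * B * Real.exp (-r / (4 * η))) := by
  have hr0 : 0 < r := by linarith
  have hrne : r ≠ 0 := hr0.ne'
  set M : ℝ := r / (4 * η) with hM
  have hM0 : 0 < M := by positivity
  have hMη : M * (4 * (η / r)) = 1 := by
    rw [hM]; field_simp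
  have hηr : η / r ≤ 1 / 8 := by
    rw [div_le_iff₀ hr0]; linarith
  have hηr0 : 0 < η / r := by positivity
  have hMη2 : M * (η / r) ^ 2 ≤ 1 / 32 := by
    have : M * (η / r) ^ 2 = (M * (4 * (η / r))) * ((η / r) / 4) := by ring
    rw [this, hMη]
    linarith
  set C : ℝ := max (3 * ε) (3 * B * Real.exp (-r / (4 * η))) with hC
  set U : Set ℂ := Set.Ioo (E - r) (E + r) ×ℂ Set.Ioo (η - r) η with hU
  have hcl : closure U = Set.Icc (E - r) (E + r) ×ℂ Set.Icc (η - r) η := by
    rw [hU, Complex.closure_reProdIm, closure_Ioo (by linarith), closure_Ioo (by linarith)]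
  have hmem : ∀ z ∈ closure U, |z.re - E| ≤ r ∧ η - r ≤ z.im ∧ z.im ≤ η := by
    intro z hz
    rw [hcl, Complex.mem_reProdIm, Set.mem_Icc, Set.mem_Icc] at hz
    refine ⟨abs_le.2 ⟨by linarith [hz.1.1], by linarith [hz.1.2]⟩, hz.2.1, hz.2.2⟩
  have hdiff : DiffContOnCl ℂ (fun z => f z * wt E r M z) U := by
    apply DifferentiableOn.diffContOnCl
    intro z hz
    have h1 := hf z (hmem z hz).1 (hmem z hz).2.1 (hmem z hz).2.2
    have h2 : DifferentiableAt ℂ (wt E r M) z := by
      unfold wt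
      fun_prop
    exact (h1.mul h2).differentiableWithinAt
  have hbdd : Bornology.IsBounded U := by
    rw [hU]
    exact (Metric.isBounded_Ioo _ _).reProdIm (Metric.isBounded_Ioo _ _)
  have hopen : IsOpen U := isOpen_Ioo.reProdIm isOpen_Ioo
  have hfr : ∀ z ∈ frontier U, ‖f z * wt E r M z‖ ≤ C := by
    intro z hz
    rw [hopen.frontier_eq] at hz
    obtain ⟨hz1, hz2⟩ := hz
    obtain ⟨m1, m2, m3⟩ := hmem z hz1
    rw [norm_mul, norm_wt E r M hrne]
    set s : ℝ := (z.re - E) / r with hs
    set t : ℝ := z.im / r with ht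
    have ht1 : t ≤ η / r := div_le_div_of_nonneg_right m3 hr0.le
    have ht2 : η / r - 1 ≤ t := by
      rw [ht, div_sub_one hrne]
      exact div_le_div_of_nonneg_right m2 hr0.le
    by_cases htop : z.im = η
    · refine le_trans ?_ (le_max_left _ _)
      have h1 := hf1 z m1 htop
      have h2 : Real.exp (-M * (s ^ 2 - t ^ 2 - 4 * t)) ≤ 3 := by
        apply exp_le_three
        have e2 : t = η / r := by rw [ht, htop]
        rw [e2]
        have : 0 ≤ M * s ^ 2 := by positivity
        nlinarith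
      calc ‖f z‖ * Real.exp (-M * (s ^ 2 - t ^ 2 - 4 * t)) ≤ ε * 3 :=
            mul_le_mul h1 h2 (Real.exp_pos _).le hε
        _ = 3 * ε := by ring
    · refine le_trans ?_ (le_max_right _ _)
      have h1 := hf2 z m1 m2 m3
      have h2 : -M * (s ^ 2 - t ^ 2 - 4 * t) ≤ -M + (1 + 1 / 32) := by
        by_cases hbot : z.im = η - r
        · have e2 : t = η / r - 1 := by rw [ht, hbot, sub_div, div_self hrne]
          have h3 : 1 ≤ -t ^ 2 - 4 * t := by
            rw [e2]
            nlinarith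
          have h4 : 0 ≤ M * s ^ 2 := by positivity
          nlinarith
        · have hs1 : s ^ 2 = 1 := by
            have h3 : z.im ∈ Set.Ioo (η - r) η :=
              ⟨lt_of_le_of_ne m2 (Ne.symm hbot), lt_of_le_of_ne m3 htop⟩
            have h4 : ¬ (z.re ∈ Set.Ioo (E - r) (E + r)) := by
              intro h5
              exact hz2 (by rw [hU, Complex.mem_reProdIm]; exact ⟨h5, h3⟩)
            have h6 : |z.re - E| = r := by
              apply le_antisymm m1
              by_contra hcon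
              rw [not_le] at hcon
              apply h4
              rw [abs_lt] at hcon
              exact ⟨by linarith [hcon.1], by linarith [hcon.2]⟩
            rw [hs, div_pow, ← sq_abs, h6]
            field_simp
          rw [hs1]
          rcases le_total t 0 with h0 | h0
          · have h5 : 0 ≤ -t ^ 2 - 4 * t := by nlinarith
            nlinarith
          · have h5 : M * t ^ 2 ≤ M * (η / r) ^ 2 :=
              mul_le_mul_of_nonneg_left (pow_le_pow_left₀ h0 ht1 2) hM0.le
            have h6 : M * (4 * t) ≤ M * (4 * (η / r)) :=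
              mul_le_mul_of_nonneg_left (by linarith) hM0.le
            nlinarith
      have h3 : Real.exp (-M * (s ^ 2 - t ^ 2 - 4 * t)) ≤ 3 * Real.exp (-r / (4 * η)) := by
        have e3 : -r / (4 * η) = -M := by rw [hM, neg_div]
        rw [e3]
        calc _ ≤ Real.exp (-M + (1 + 1 / 32)) := Real.exp_le_exp.2 h2
          _ = Real.exp (1 + 1 / 32) * Real.exp (-M) := by rw [← Real.exp_add]; congr 1; ring
          _ ≤ _ := mul_le_mul_of_nonneg_right (exp_le_three le_rfl) (Real.exp_pos _).le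
      calc _ ≤ B * (3 * Real.exp (-r / (4 * η))) :=
            mul_le_mul h1 h3 (Real.exp_pos _).le hB
        _ = _ := by ring
  have hE : (E : ℂ) ∈ closure U := by
    rw [hcl, Complex.mem_reProdIm, Complex.ofReal_re, Complex.ofReal_im]
    constructor <;> constructor <;> linarith
  have hfin := Complex.norm_le_of_forall_mem_frontier_norm_le hbdd hdiff hfr hE
  rw [norm_mul, norm_wt E r M hrne, Complex.ofReal_re, Complex.ofReal_im] at hfin
  simpa using hfin

/-- pigeonhole: a point of the interval which is far from finitely many points -/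
theorem exists_far {ι : Type*} [Fintype ι] (lam : ι → ℝ) (F s N : ℝ) (hs : 0 < s)
    (hN : (Fintype.card ι : ℝ) = N) (hN1 : 1 ≤ N) :
    ∃ F' : ℝ, |F' - F| ≤ s ∧ ∀ j, s / N ≤ |F' - lam j| := by
  classical
  by_contra hcon
  push Not at hcon
  have hN0 : 0 < N := by linarith
  set p : Fin (Fintype.card ι + 1) → ℝ := fun k => F - s + 2 * s / N * (k : ℕ) with hp
  have h1 : ∀ k, |p k - F| ≤ s := by
    intro k
    rw [abs_le]
    have hk : ((k : ℕ) : ℝ) ≤ N := by
      rw [← hN]
      exact_mod_cast Nat.lt_succ_iff.1 k.2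
    have h2 : 0 ≤ 2 * s / N * (k : ℕ) := by positivity
    have h3 : 2 * s / N * (k : ℕ) ≤ 2 * s := by
      calc 2 * s / N * (k : ℕ) ≤ 2 * s / N * N := mul_le_mul_of_nonneg_left hk (by positivity)
        _ = 2 * s := by field_simp
    rw [hp]
    constructor <;> linarith
  choose j hj using fun k => hcon (p k) (h1 k)
  obtain ⟨k, k', hne, heq⟩ : ∃ k k', k ≠ k' ∧ j k = j k' := by
    apply Fintype.exists_ne_map_eq_of_card_lt
    rw [Fintype.card_fin]
    omega
  have h2 := hj k
  have h3 := hj k'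
  rw [← heq] at h3
  have h4 : |p k - p k'| < 2 * (s / N) := by
    have := abs_sub_le (p k) (lam (j k)) (p k')
    rw [abs_sub_comm (lam (j k)) (p k')] at this
    linarith
  have h5 : |p k - p k'| = 2 * (s / N) * |((k : ℕ) : ℝ) - ((k' : ℕ) : ℝ)| := by
    rw [hp]
    have : F - s + 2 * s / N * (k : ℕ) - (F - s + 2 * s / N * (k' : ℕ)) =
        2 * (s / N) * (((k : ℕ) : ℝ) - ((k' : ℕ) : ℝ)) := by ring
    rw [this, abs_mul, abs_of_pos (by positivity : 0 < 2 * (s / N))]
  have h6 : 1 ≤ |((k : ℕ) : ℝ) - ((k' : ℕ) : ℝ)| := by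
    have h7 : ((k : ℕ) : ℤ) - ((k' : ℕ) : ℤ) ≠ 0 := by
      intro h
      apply hne
      apply Fin.ext
      omega
    have h8 := Int.one_le_abs h7
    exact_mod_cast h8
  rw [h5] at h4
  have h9 : 0 < 2 * (s / N) := by positivity
  nlinarith

variable {d : ℕ}

/-- the Green function satisfies the equation -/
theorem gr_eqn {V : Site d → ℝ} {Λ : Finset (Site d)} {F : ℝ} {y : Site d}
    (hdet : (RM V Λ F).det ≠ 0) {v : Site d} (hv : v ∈ Λ) (hy : y ∈ Λ) (hvy : v ≠ y) :
    lap (fun w => (gr V Λ F w y : ℂ)) v + (V v : ℂ) * (gr V Λ F v y : ℂ) =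
      (F : ℂ) * (gr V Λ F v y : ℂ) := by
  have h1 := rm_mul_gr hdet hv hy
  rw [if_neg hvy] at h1
  have h2 : lap (fun w => (gr V Λ F w y : ℂ)) v = ∑ z ∈ Λ, (hop v z : ℂ) * (gr V Λ F z y : ℂ) := by
    rw [← lap_indicator]
    congr 1
    funext w
    by_cases hw : w ∈ Λ
    · rw [if_pos hw]
    · rw [if_neg hw]
      unfold gr
      rw [dif_neg (fun h => hw h.1)]
      simp
  have h3 : ∑ z ∈ Λ, rm V F v z * gr V Λ F z y = (F - V v) * gr V Λ F v y -
      ∑ z ∈ Λ, hop v z * gr V Λ F z y := by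
    unfold rm
    simp_rw [sub_mul, Finset.sum_sub_distrib, ite_mul, zero_mul]
    rw [Finset.sum_ite_eq, if_pos hv]
    ring
  rw [h3] at h1
  have h4 : ∑ z ∈ Λ, hop v z * gr V Λ F z y = (F - V v) * gr V Λ F v y := by linarith
  rw [h2]
  have h5 : ∑ z ∈ Λ, (hop v z : ℂ) * (gr V Λ F z y : ℂ) =
      ((∑ z ∈ Λ, hop v z * gr V Λ F z y : ℝ) : ℂ) := by
    push_cast
    rfl
  rw [h5, h4]
  push_cast
  ring

theorem dlb (hexp : ExpStmt) : DlbStmt := by
  intro d V μ E h η s κ N L n y hd hη hηh hs hsh hκ hN hLy hyn hgood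
  classical
  have hh : 0 < h := by linarith
  obtain ⟨Λ, hΛ⟩ : ∃ Λ : Finset (Site d), Λ = box 0 n := ⟨_, rfl⟩
  rw [← hΛ]
  obtain ⟨lam, φ, hφ0, hn, hc, heq, hdet, hz⟩ := hexp d V Λ
  have hcard : (Fintype.card Λ : ℝ) = N := by
    rw [Fintype.card_coe, hΛ, card_box, hN]
    push_cast
    rfl
  have hN1 : 1 ≤ N := by
    rw [hN]
    apply one_le_pow₀
    have : (0 : ℝ) ≤ n := by positivity
    linarith
  have hN0 : 0 < N := by linarith
  have hκ0 : 0 ≤ κ := by rw [hκ]; positivity
  have h0Λ : (0 : Site d) ∈ Λ := by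
    rw [hΛ, mem_box, sd_self]; omega
  have hyΛ : y ∈ Λ := by
    rw [hΛ, mem_box]; omega
  have hsub0 : box (0 : Site d) L ⊆ Λ := by
    intro v hv
    rw [hΛ, mem_box]
    rw [mem_box] at hv
    omega
  have hsuby : box y L ⊆ Λ := by
    intro v hv
    rw [hΛ, mem_box]
    rw [mem_box] at hv
    have := sd_triangle 0 y v
    omega
  -- bounds for the eigenvectors
  have hφ1 : ∀ j v, |φ j v| ≤ 1 := by
    intro j v
    by_cases hv : v ∈ Λ
    · have h1 := hn j
      have h2 : φ j v ^ 2 ≤ ∑ x ∈ Λ, φ j x ^ 2 :=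
        Finset.single_le_sum (f := fun x => φ j x ^ 2) (fun x _ => sq_nonneg _) hv
      rw [h1] at h2
      exact abs_le_one_iff_mul_self_le_one.2 (by nlinarith)
    · rw [hφ0 j v hv, abs_zero]
      norm_num
  have hcs : ∀ u ∈ Λ, ∀ v ∈ Λ, ∑ j, |φ j u * φ j v| ≤ 1 := by
    intro u hu v hv
    have h1 := hc u hu
    have h2 := hc v hv
    calc ∑ j, |φ j u * φ j v| ≤ ∑ j, (φ j u ^ 2 + φ j v ^ 2) / 2 := by
          apply Finset.sum_le_sum
          intro j _
          rw [abs_mul]
          nlinarith [sq_nonneg (|φ j u| - |φ j v|), sq_abs (φ j u), sq_abs (φ j v)]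
      _ = 1 := by
          rw [← Finset.sum_div, Finset.sum_add_distrib, h1, h2]
          norm_num
  -- the product at a resonant eigenvalue
  have hprod : ∀ j, |lam j - E| ≤ 2 * h → |φ j 0 * φ j y| ≤ κ := by
    intro j hj
    have hb : ∀ x : Site d, box x L ⊆ Λ → FGood V L x (lam j) μ → |φ j x| ≤ κ := by
      intro x hx hg
      have := H48.fGood_bound (ψ := fun v => (φ j v : ℂ)) (M := 1) (by omega) hg
        (fun v hv => heq j v (hx hv)) (fun v _ => by
          rw [Complex.norm_real]
          exact hφ1 j v)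
      rw [Complex.norm_real, Real.norm_eq_abs, mul_one, ← hκ] at this
      exact this
    rw [abs_mul]
    rcases hgood (lam j) hj with hg | hg
    · have := hb 0 hsub0 hg
      nlinarith [hφ1 j y, abs_nonneg (φ j 0), abs_nonneg (φ j y)]
    · have := hb y hsuby hg
      nlinarith [hφ1 j 0, abs_nonneg (φ j 0), abs_nonneg (φ j y)]
  -- splitting
  set R : Finset Λ := Finset.univ.filter fun j => |lam j - E| ≤ 2 * h with hR
  set Q : Finset Λ := Finset.univ.filter fun j => ¬ |lam j - E| ≤ 2 * h with hQ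
  obtain ⟨S, hS⟩ : ∃ S : ℂ → ℂ, S = fun z => ∑ j ∈ R, ((φ j 0 * φ j y : ℝ) : ℂ) / (z - lam j) :=
    ⟨_, rfl⟩
  obtain ⟨g, hg⟩ : ∃ g : ℂ → ℂ, g = fun z => ∑ j ∈ Q, ((φ j 0 * φ j y : ℝ) : ℂ) / (z - lam j) :=
    ⟨_, rfl⟩
  have hsplit : ∀ z : ℂ, (∀ j, z ≠ lam j) → gz V Λ z 0 y = S z + g z := by
    intro z hzz
    rw [hz z hzz 0 y, hS, hg, hR, hQ]
    exact (Finset.sum_filter_add_sum_filter_not _ _ _).symm
  have hRc : (R.card : ℝ) ≤ N := by
    rw [← hcard]
    exact_mod_cast Finset.card_le_univ R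
  have hSb : ∀ (z : ℂ) (c : ℝ), 0 < c → (∀ j, c ≤ ‖z - lam j‖) → ‖S z‖ ≤ N * κ / c := by
    intro z c hc0 hcz
    rw [hS]
    calc ‖∑ j ∈ R, ((φ j 0 * φ j y : ℝ) : ℂ) / (z - lam j)‖ ≤ ∑ j ∈ R, ‖((φ j 0 * φ j y : ℝ) : ℂ) / (z - lam j)‖ := norm_sum_le _ _
      _ ≤ ∑ j ∈ R, κ / c := by
          apply Finset.sum_le_sum
          intro j hj
          rw [norm_div, Complex.norm_real, Real.norm_eq_abs]
          exact div_le_div₀ hκ0 (hprod j (Finset.mem_filter.1 hj).2) hc0 (hcz j)
      _ = R.card * (κ / c) := by rw [Finset.sum_const, nsmul_eq_mul]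
      _ ≤ N * (κ / c) := mul_le_mul_of_nonneg_right hRc (by positivity)
      _ = N * κ / c := by ring
  have hsumQ : ∑ j ∈ Q, |φ j 0 * φ j y| ≤ 1 :=
    (Finset.sum_le_sum_of_subset_of_nonneg (Finset.filter_subset _ _)
      (fun j _ _ => abs_nonneg _)).trans (hcs 0 h0Λ y hyΛ)
  have hfar : ∀ (z : ℂ) (t : ℝ), |z.re - E| ≤ t → ∀ j ∈ Q, 2 * h - t ≤ ‖z - lam j‖ := by
    intro z t hzt j hj
    have h1 := (Finset.mem_filter.1 hj).2
    rw [not_le] at h1
    refine le_trans ?_ (Complex.abs_re_le_norm _)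
    rw [Complex.sub_re, Complex.ofReal_re]
    have h2 : |lam j - E| ≤ |z.re - lam j| + |z.re - E| := by
      have := abs_sub_le (lam j) z.re E
      rw [abs_sub_comm (lam j) z.re] at this
      exact this
    linarith
  have hgb : ∀ z : ℂ, |z.re - E| ≤ h → ‖g z‖ ≤ 1 / h := by
    intro z hzE
    rw [hg]
    calc ‖∑ j ∈ Q, ((φ j 0 * φ j y : ℝ) : ℂ) / (z - lam j)‖ ≤ ∑ j ∈ Q, ‖((φ j 0 * φ j y : ℝ) : ℂ) / (z - lam j)‖ := norm_sum_le _ _
      _ ≤ ∑ j ∈ Q, |φ j 0 * φ j y| / h := by
          apply Finset.sum_le_sum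
          intro j hj
          rw [norm_div, Complex.norm_real, Real.norm_eq_abs]
          have := hfar z h hzE j hj
          exact div_le_div_of_nonneg_left (abs_nonneg _) hh (by linarith)
      _ = (∑ j ∈ Q, |φ j 0 * φ j y|) / h := by rw [Finset.sum_div]
      _ ≤ 1 / h := div_le_div_of_nonneg_right hsumQ hh.le
  have hgd : ∀ z : ℂ, |z.re - E| ≤ h → DifferentiableAt ℂ g z := by
    intro z hzE
    rw [hg]
    apply DifferentiableAt.fun_sum
    intro j hj
    apply DifferentiableAt.div (differentiableAt_const _) (by fun_prop)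
    intro h0
    have := hfar z h hzE j hj
    rw [h0, norm_zero] at this
    linarith
  -- real energies
  have hreal : ∀ F : ℝ, |F - E| ≤ h → ‖g F‖ ≤ (N + 1) ^ 2 * κ / s + 4 * s / h ^ 2 := by
    intro F hF
    obtain ⟨F', hF1, hF2⟩ := exists_far lam F s N hs hcard hN1
    have hsN : 0 < s / N := by positivity
    have hF'E : |F' - E| ≤ 3 / 2 * h := by
      have := abs_sub_le F' F E
      linarith
    have hne : ∀ j, (F' : ℂ) ≠ lam j := by
      intro j hj
      have h1 : F' = lam j := by exact_mod_cast hj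
      have := hF2 j
      rw [h1, sub_self, abs_zero] at this
      linarith
    have hnorm : ∀ j, s / N ≤ ‖(F' : ℂ) - lam j‖ := by
      intro j
      rw [← Complex.ofReal_sub, Complex.norm_real]
      exact hF2 j
    have hdet' : (RM V Λ F').det ≠ 0 := by
      intro h0
      obtain ⟨j, hj⟩ := (hdet F').1 h0
      exact hne j (by exact_mod_cast hj.symm)
    -- all the entries
    have hall : ∀ u v : Site d, |gr V Λ F' u v| ≤ N / s := by
      intro u v
      by_cases huv : u ∈ Λ ∧ v ∈ Λ
      · have h1 := hz F' hne u v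
        rw [H11.gz_real] at h1
        have h2 : |gr V Λ F' u v| = ‖(gr V Λ F' u v : ℂ)‖ := by
          rw [Complex.norm_real, Real.norm_eq_abs]
        rw [h2, h1]
        calc ‖∑ j, ((φ j u * φ j v : ℝ) : ℂ) / ((F' : ℂ) - lam j)‖
            ≤ ∑ j, ‖((φ j u * φ j v : ℝ) : ℂ) / ((F' : ℂ) - lam j)‖ := norm_sum_le _ _
          _ ≤ ∑ j, |φ j u * φ j v| / (s / N) := by
              apply Finset.sum_le_sum
              intro j _
              rw [norm_div, Complex.norm_real, Real.norm_eq_abs]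
              exact div_le_div_of_nonneg_left (abs_nonneg _) hsN (hnorm j)
          _ = (∑ j, |φ j u * φ j v|) / (s / N) := by rw [Finset.sum_div]
          _ ≤ 1 / (s / N) := div_le_div_of_nonneg_right (hcs u huv.1 v huv.2) hsN.le
          _ = N / s := by rw [one_div_div]
      · unfold gr
        rw [dif_neg huv, abs_zero]
        positivity
    have hgr : ‖gz V Λ (F' : ℂ) 0 y‖ ≤ κ * (N / s) := by
      rw [H11.gz_real, Complex.norm_real, Real.norm_eq_abs]
      rcases hgood F' (by linarith) with hg0 | hgy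
      · have := H48.fGood_bound (ψ := fun v => (gr V Λ F' v y : ℂ)) (M := N / s) (by omega) hg0
          (fun v hv => gr_eqn hdet' (hsub0 hv) hyΛ (by
            rintro rfl
            rw [mem_box] at hv
            omega))
          (fun v _ => by
            rw [Complex.norm_real]
            exact hall v y)
        rw [Complex.norm_real, Real.norm_eq_abs, ← hκ] at this
        exact this
      · have := H48.fGood_bound (ψ := fun v => (gr V Λ F' v 0 : ℂ)) (M := N / s) (by omega) hgy
          (fun v hv => gr_eqn hdet' (hsuby hv) h0Λ (by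
            rintro rfl
            rw [mem_box, sd_comm] at hv
            omega))
          (fun v _ => by
            rw [Complex.norm_real]
            exact hall v 0)
        rw [Complex.norm_real, Real.norm_eq_abs, ← hκ] at this
        rw [gr_symm]
        exact this
    have hgF' : ‖g F'‖ ≤ (N + 1) ^ 2 * κ / s := by
      have h1 : g F' = gz V Λ (F' : ℂ) 0 y - S F' := by
        rw [hsplit F' hne]; ring
      have h2 := hSb F' (s / N) hsN hnorm
      calc ‖g F'‖ ≤ ‖gz V Λ (F' : ℂ) 0 y‖ + ‖S F'‖ := by rw [h1]; exact norm_sub_le _ _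
        _ ≤ κ * (N / s) + N * κ / (s / N) := add_le_add hgr h2
        _ = (N + N ^ 2) * κ / s := by field_simp
        _ ≤ (N + 1) ^ 2 * κ / s := by
            apply div_le_div_of_nonneg_right _ hs.le
            apply mul_le_mul_of_nonneg_right _ hκ0
            nlinarith
    have hdiff : ‖g F - g F'‖ ≤ 4 * s / h ^ 2 := by
      rw [hg]
      beta_reduce
      rw [← Finset.sum_sub_distrib]
      calc ‖∑ j ∈ Q, (((φ j 0 * φ j y : ℝ) : ℂ) / ((F : ℂ) - lam j) -
            ((φ j 0 * φ j y : ℝ) : ℂ) / ((F' : ℂ) - lam j))‖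
          ≤ ∑ j ∈ Q, ‖((φ j 0 * φ j y : ℝ) : ℂ) / ((F : ℂ) - lam j) -
            ((φ j 0 * φ j y : ℝ) : ℂ) / ((F' : ℂ) - lam j)‖ := norm_sum_le _ _
        _ ≤ ∑ j ∈ Q, |φ j 0 * φ j y| * (4 * s / h ^ 2) := by
            apply Finset.sum_le_sum
            intro j hj
            have f1 := hfar F h (by simpa using hF) j hj
            have f2 := hfar F' (3 / 2 * h) (by simpa using hF'E) j hj
            have f3 : (F : ℂ) - lam j ≠ 0 := by
              intro h0
              rw [h0, norm_zero] at f1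
              linarith
            have f4 : (F' : ℂ) - lam j ≠ 0 := by
              intro h0
              rw [h0, norm_zero] at f2
              linarith
            have e1 : ((φ j 0 * φ j y : ℝ) : ℂ) / ((F : ℂ) - lam j) -
                ((φ j 0 * φ j y : ℝ) : ℂ) / ((F' : ℂ) - lam j) =
                ((φ j 0 * φ j y : ℝ) : ℂ) * (((F' - F : ℝ) : ℂ) /
                  (((F : ℂ) - lam j) * ((F' : ℂ) - lam j))) := by
              field_simp
              push_cast
              ring
            rw [e1, norm_mul, Complex.norm_real, Real.norm_eq_abs]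
            apply mul_le_mul_of_nonneg_left _ (abs_nonneg _)
            rw [norm_div, Complex.norm_real, Real.norm_eq_abs, norm_mul]
            have e2 : 4 * s / h ^ 2 = s / (h * (1 / 4 * h)) := by
              field_simp
            rw [e2]
            apply div_le_div₀ hs.le hF1 (by positivity)
            exact mul_le_mul (by linarith) (by linarith) (by positivity) (norm_nonneg _)
        _ = (∑ j ∈ Q, |φ j 0 * φ j y|) * (4 * s / h ^ 2) := by rw [Finset.sum_mul]
        _ ≤ 1 * (4 * s / h ^ 2) := mul_le_mul_of_nonneg_right hsumQ (by positivity)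
        _ = _ := one_mul _
    calc ‖g F‖ = ‖g F' + (g F - g F')‖ := by congr 1; ring
      _ ≤ ‖g F'‖ + ‖g F - g F'‖ := norm_add_le _ _
      _ ≤ _ := add_le_add hgF' hdiff
  -- the height `η`
  have hε0 : 0 ≤ (N + 1) ^ 2 * κ / s + 4 * s / h ^ 2 := by positivity
  have hmax := max_rect (f := fun ζ => g (2 * E + η * Complex.I - ζ)) (E := E) (r := h) (η := η)
    (ε := (N + 1) ^ 2 * κ / s + 4 * s / h ^ 2) (B := 1 / h) hη hηh hε0 (by positivity)
    (by
      intro ζ h1 _ _
      have h2 : DifferentiableAt ℂ g (2 * E + η * Complex.I - ζ) := by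
        apply hgd
        have e1 : (2 * (E : ℂ) + η * Complex.I - ζ).re - E = -(ζ.re - E) := by
          simp
          ring
        rw [e1, abs_neg]
        exact h1
      exact DifferentiableAt.comp (g := g) ζ h2 (by fun_prop))
    (by
      intro ζ h1 h2
      have e1 : 2 * (E : ℂ) + η * Complex.I - ζ = ((2 * E - ζ.re : ℝ) : ℂ) := by
        apply Complex.ext
        · simp
        · simp [h2]
      rw [e1]
      apply hreal
      have e2 : 2 * E - ζ.re - E = -(ζ.re - E) := by ring
      rw [e2, abs_neg]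
      exact h1)
    (by
      intro ζ h1 _ _
      apply hgb
      have e1 : (2 * (E : ℂ) + η * Complex.I - ζ).re - E = -(ζ.re - E) := by
        simp
        ring
      rw [e1, abs_neg]
      exact h1)
  have e3 : 2 * (E : ℂ) + η * Complex.I - E = zz η E := by
    unfold zz
    ring
  beta_reduce at hmax
  rw [e3] at hmax
  have him : (zz η E).im = η := by
    unfold zz
    simp
  have hne : ∀ j, zz η E ≠ lam j := by
    intro j hj
    have := congrArg Complex.im hj
    rw [him, Complex.ofReal_im] at this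
    exact hη.ne' this
  have hSz := hSb (zz η E) η hη (fun j => by
    refine le_trans ?_ (Complex.abs_im_le_norm _)
    rw [Complex.sub_im, him, Complex.ofReal_im, sub_zero, abs_of_pos hη])
  rw [hsplit _ hne]
  calc ‖S (zz η E) + g (zz η E)‖ ≤ ‖S (zz η E)‖ + ‖g (zz η E)‖ := norm_add_le _ _
    _ ≤ N * κ / η + (3 * ((N + 1) ^ 2 * κ / s + 4 * s / h ^ 2) +
        3 * (1 / h) * Real.exp (-h / (4 * η))) := by
        apply add_le_add hSz
        refine hmax.trans ?_
        apply max_le
        · have : 0 ≤ 3 * (1 / h) * Real.exp (-h / (4 * η)) := by positivity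
          linarith
        · linarith
    _ = _ := by ring

end Pool.Agent.Mob.H42
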