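import Pool.Agent.Mob.Stmts2
import Pool.Agent.Helper42_Mob.Fin

/-!
# Metal-insulator transport transition: assembly of the second version (constant 6)
-/

set_option autoImplicit false
set_option linter.unusedSectionVars false

open MeasureTheory ProbabilityTheory Function

open scoped ENNReal BigOperators ComplexInnerProductSpace

noncomputable section

namespace Pool.Agent.Mob.H42

open Pool.Agent.Anderson Pool.Agent.Loc Pool.Agent.Helper54.Bal Pool.Agent.Mob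

/-- the statement of the theorem -/
def MainStmt2.{u} : Prop :=
  ∀ d : ℕ, 1 ≤ d → ∃ σ₁ C : ℝ, 0 < σ₁ ∧ 0 < C ∧ ∀ σ : ℝ, σ ≠ 0 →
    ∃ Loc : Set ℝ, IsOpen Loc ∧ (σ₁ ≤ |σ| → Loc = Set.univ) ∧
      (3 ≤ d → ∀ E : ℝ,
        2 * d + watson d * σ ^ 2 + C * |σ| ^ (2 + 1 / (24 * d : ℝ)) < |E| → E ∈ Loc) ∧
      ∀ (Ω : Type u) [MeasurableSpace Ω] (P : Measure Ω) [IsProbabilityMeasure P]
        (ξ : Site d → Ω → ℝ), (∀ y, Measurable (ξ y)) →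
        (∀ y, P.map (ξ y) = gaussianReal 0 1) → iIndepFun ξ P →
        (∀ K : Set ℝ, IsCompact K → K ⊆ Loc → ∃ m : ℝ, 0 < m ∧ ∀ᵐ ω ∂P, ∀ E ∈ K,
          ∀ ψ : Site d → ℂ,
            (∃ (B : ℝ) (k : ℕ), ∀ x, ‖ψ x‖ ≤ B * (1 + (sd 0 x : ℝ)) ^ k) →
            (∀ x, lap ψ x + ((σ * ξ x ω : ℝ) : ℂ) * ψ x = (E : ℂ) * ψ x) →
            ∃ B : ℝ, ∀ x, ‖ψ x‖ ≤ B * Real.exp (-m * sd 0 x)) ∧
        (∀ᵐ ω ∂P, ∀ c r : ℝ, Set.Icc (c - r) (c + r) ⊆ Loc → ∀ u w : L2 d,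
          (∀ x, w x = lap u x + ((σ * ξ x ω : ℝ) : ℂ) * u x) →
          (∀ (E : ℝ) (ψ : L2 d), E ∈ Set.Icc (c - r) (c + r) →
            IsEigen (fun x => σ * ξ x ω) E ψ → ⟪ψ, u⟫ = 0) →
          r * ‖u‖ ≤ ‖w - (c : ℂ) • u‖) ∧
        (∀ a b δ : ℝ, ¬ Set.Ioo a b ⊆ Loc → 0 < δ → δ ≤ 1 → ∃ T₀ : ℝ, ∀ T : ℝ, T₀ ≤ T →
          ENNReal.ofReal (T ^ (-6 : ℝ)) ≤
            ∫⁻ ω, spread (fun x => σ * ξ x ω) T (T ^ (1 / ((d : ℝ) + δ))) (Set.Ioo a b) ∂P) ∧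
        (Loc ≠ Set.univ → ∀ δ p : ℝ, 0 < δ → δ ≤ 1 → 0 < p → ∃ T₀ : ℝ, ∀ T : ℝ, T₀ ≤ T →
          ∀ ψ : Ω → ℝ → L2 d, (∀ ω, IsEvolution (fun x => σ * ξ x ω) (ψ ω)) →
            ENNReal.ofReal (T ^ (p / ((d : ℝ) + δ) - 6)) ≤ ∫⁻ ω, avgMoment (ψ ω) T p ∂P)

theorem main2 (hIni : In2Stmt) (hBlk : BlkStmt) (hLrg : LrgStmt) (hEdg : EdgStmt)
    (hBdc : BdcStmt) (hTbx : TbxStmt) (hSep : SepStmt) (hDcy : DcyStmt) (hCmp : CmpStmt)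
    (hTim : TimStmt) : MainStmt2 := by
  intro d hd
  obtain ⟨C₀, hC₀, hB⟩ := hBlk d hd
  obtain ⟨σ₁, hσ₁, hL⟩ := hLrg d hd C₀ hC₀
  obtain ⟨C, hC, hE⟩ : ∃ C : ℝ, 0 < C ∧ (3 ≤ d → ∀ C₀ σ : ℝ, 0 < C₀ → σ ≠ 0 →
      ∃ L : ℕ, ∀ E : ℝ,
      2 * d + watson d * σ ^ 2 + C * |σ| ^ (2 + 1 / (24 * d : ℝ)) ≤ |E| → Crit d C₀ σ E L) := by
    by_cases h3 : 3 ≤ d
    · obtain ⟨C, hC, h⟩ := hEdg d h3
      exact ⟨C, hC, fun _ => h⟩
    · exact ⟨1, one_pos, fun h => absurd h h3⟩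
  refine ⟨σ₁, C, hσ₁, hC, fun σ hσ => ⟨LocSet d C₀ σ, isOpen_LocSet d C₀ σ, ?_, ?_, ?_⟩⟩
  · intro h
    ext E
    simp only [Set.mem_univ, iff_true]
    exact ⟨1, one_pos, 0, fun F _ => hL σ h F⟩
  · intro h3 E hEE
    obtain ⟨L, hLE⟩ := hE h3 C₀ σ hC₀ hσ
    set e := 2 * d + watson d * σ ^ 2 + C * |σ| ^ (2 + 1 / (24 * d : ℝ)) with he
    refine ⟨|E| - e, by linarith, L, fun F hF => hLE F ?_⟩
    rw [Set.mem_Icc] at hF
    have h1 : |E| - |F| ≤ |E - F| := abs_sub_abs_le_abs_sub E F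
    have h2 : |E - F| ≤ |E| - e := by
      rw [abs_le]
      constructor <;> linarith [hF.1, hF.2]
    linarith
  intro Ω _ P _ ξ hm hlaw hind
  obtain ⟨μ, hμ, hTB⟩ := exists_rate hBdc hTbx hd hC₀ hσ (hB σ hσ)
  have hmetal : ∀ a b δ : ℝ, ¬ Set.Ioo a b ⊆ LocSet d C₀ σ → 0 < δ → δ ≤ 1 →
      ∃ T₀ : ℝ, 1 ≤ T₀ ∧ ∀ T : ℝ, T₀ ≤ T → ENNReal.ofReal (T ^ (-6 : ℝ)) ≤
        ∫⁻ ω, spread (fun x => σ * ξ x ω) T (T ^ (1 / ((d : ℝ) + δ))) (Set.Ioo a b) ∂P := by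
    intro a b δ hab hδ hδ1
    obtain ⟨E₀, hE₀, hE₀'⟩ := Set.not_subset.1 hab
    obtain ⟨T₀, hT₀, h⟩ := hIni d hd C₀ σ hC₀ hσ δ a b E₀ hδ hδ1 hE₀.1 hE₀.2
    refine ⟨T₀, hT₀, fun T hT => ?_⟩
    by_contra hcon
    rw [not_le] at hcon
    apply hE₀'
    exact h T hT (lt_of_le_of_lt (lintegral_transfer hm hlaw hind σ
      (fun V => spread V T (T ^ (1 / ((d : ℝ) + δ))) (Set.Ioo a b))) hcon)
  refine ⟨?_, ?_, ?_, ?_⟩
  · intro K hK hKL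
    obtain ⟨m, hm0, h⟩ := loc_compact hDcy hd hμ hTB hK hKL
    exact ⟨m, hm0, ae_transfer hm hlaw hind σ h⟩
  · exact ae_transfer hm hlaw hind σ (loc_complete hSep hCmp hd hσ hμ hTB)
  · intro a b δ hab hδ hδ1
    obtain ⟨T₀, _, h⟩ := hmetal a b δ hab hδ hδ1
    exact ⟨T₀, h⟩
  · intro hne δ p hδ hδ1 hp
    obtain ⟨E₀, hE₀⟩ : ∃ E₀, E₀ ∉ LocSet d C₀ σ := by
      by_contra hcon
      push Not at hcon
      exact hne (Set.eq_univ_of_forall hcon)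
    obtain ⟨T₀, hT₀, h⟩ := hmetal (E₀ - 1) (E₀ + 1) (δ / 2)
      (fun hsub => hE₀ (hsub ⟨by linarith, by linarith⟩)) (by linarith) (by linarith)
    have hd0 : (0 : ℝ) < d := by exact_mod_cast hd
    have hgap : 0 < p / ((d : ℝ) + δ / 2) - p / ((d : ℝ) + δ) := by
      rw [sub_pos]
      exact div_lt_div_of_pos_left hp (by positivity) (by linarith)
    obtain ⟨T₁, hT₁⟩ := Filter.eventually_atTop.1
      ((tendsto_rpow_atTop hgap).eventually_ge_atTop Real.pi)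
    refine ⟨max T₀ T₁, fun T hT ψ hψ => ?_⟩
    have hT1 : T₀ ≤ T := (le_max_left _ _).trans hT
    have hT2 := hT₁ T ((le_max_right _ _).trans hT)
    have hT1' : 1 ≤ T := hT₀.trans hT1
    have hTpos : 0 < T := by linarith
    set R := T ^ (1 / ((d : ℝ) + δ / 2)) with hR
    have hdδ : 0 < (d : ℝ) + δ / 2 := by positivity
    have hR1 : 1 ≤ R := Real.one_le_rpow hT1' (by positivity)
    have h1 : ENNReal.ofReal (T ^ (p / ((d : ℝ) + δ) - 6)) ≤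
        ENNReal.ofReal (R ^ p / Real.pi) * ENNReal.ofReal (T ^ (-6 : ℝ)) := by
      rw [← ENNReal.ofReal_mul (by positivity)]
      apply ENNReal.ofReal_le_ofReal
      have e1 : R ^ p = T ^ (p / ((d : ℝ) + δ / 2)) := by
        rw [hR, ← Real.rpow_mul hTpos.le]
        congr 1
        ring
      have e2 : T ^ (p / ((d : ℝ) + δ) - 6) = T ^ (p / ((d : ℝ) + δ)) * T ^ (-6 : ℝ) := by
        rw [← Real.rpow_add hTpos]
        congr 1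
      rw [e1, e2]
      refine mul_le_mul_of_nonneg_right ?_ (by positivity)
      rw [le_div_iff₀ Real.pi_pos]
      calc T ^ (p / ((d : ℝ) + δ)) * Real.pi ≤ T ^ (p / ((d : ℝ) + δ)) *
            T ^ (p / ((d : ℝ) + δ / 2) - p / ((d : ℝ) + δ)) :=
            mul_le_mul_of_nonneg_left hT2 (by positivity)
        _ = T ^ (p / ((d : ℝ) + δ / 2)) := by
            rw [← Real.rpow_add hTpos]
            congr 1
            ring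
    refine h1.trans ?_
    calc ENNReal.ofReal (R ^ p / Real.pi) * ENNReal.ofReal (T ^ (-6 : ℝ))
        ≤ ENNReal.ofReal (R ^ p / Real.pi) *
          ∫⁻ ω, spread (fun x => σ * ξ x ω) T R (Set.Ioo (E₀ - 1) (E₀ + 1)) ∂P := by
          gcongr
          exact h T hT1
      _ = ∫⁻ ω, ENNReal.ofReal (R ^ p / Real.pi) *
          spread (fun x => σ * ξ x ω) T R (Set.Ioo (E₀ - 1) (E₀ + 1)) ∂P :=
          (lintegral_const_mul' _ _ ENNReal.ofReal_ne_top).symm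
      _ ≤ _ := lintegral_mono fun ω => hTim d _ (ψ ω) (hψ ω) T p R hTpos hp.le hR1 _ _

end Pool.Agent.Mob.H42
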