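import Pool.Agent.Helper42_Mob.Ass2
import Pool.Agent.Helper42_Mob.Fin3
import Pool.Agent.Helper42_Mob.Dlb
import Pool.Agent.Helper32_Mob.Tot
import Pool.Agent.Helper69_Mob.Cth
import Pool.Agent.Helper69_Mob.Ins
import Pool.Agent.Helper76_Mob.Afv
import Pool.Agent.Helper47_Mob.Exp
import Pool.Agent.Helper47_Mob.Tbp

/-!
# Metal-insulator transport transition: all modules, with dynamical localization
-/

set_option autoImplicit false

namespace Pool.Agent.Mob

theorem cthT : CthStmt := H69.cth
theorem afvT : AfvStmt := H76.afv cthT gzbT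
theorem dlbT : DlbStmt := H42.dlb H47.exp_
theorem insT : InsStmt := H69.ins H47.tbp H32.tot cthT afvT dlbT

theorem main3T.{u} : H42.MainStmt3.{u} :=
  H42.main3 in2T blkT H32.lrg H58.edg H58.bdc H75.tbx (H6.sep wegT) H48.dcy
    (H46.cmp (H98.dic H32.nrm) H48.cen) H28.tim H25.shf insT

end Pool.Agent.Mob
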