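import Pool.Agent.Helper42_Mob.Fin
import Pool.Agent.Helper42_Mob.Hol
import Pool.Agent.Helper75_Mob.Cel
import Pool.Agent.Helper75_Mob.Tbx
import Pool.Agent.Helper46_Mob.Cmp
import Pool.Agent.Helper98_Mob.Ann
import Pool.Agent.Helper98_Mob.Dic
import Pool.Agent.Helper85_Mob.Aff
import Pool.Agent.Helper85_Mob.Dec
import Pool.Agent.Helper64_Mob.Ret
import Pool.Agent.Helper33_Mob.Blk
import Pool.Agent.Helper94_Mob.Ana
import Pool.Agent.Helper94_Mob.Anb
import Pool.Agent.Helper58_Mob.Bdc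
import Pool.Agent.Helper58_Mob.Edg
import Pool.Agent.Helper58_Mob.Geo
import Pool.Agent.Helper48_Mob.Dcy
import Pool.Agent.Helper11_Mob.Gzb
import Pool.Agent.Helper5_Mob.Ini
import Pool.Agent.Helper32_Mob.Lrg
import Pool.Agent.Helper32_Mob.Nrm
import Pool.Agent.Helper32_Mob.Ptw
import Pool.Agent.Helper6_Mob.Sep
import Pool.Agent.Helper25_Mob.Shf
import Pool.Agent.Helper28_Mob.Tim
import Pool.Agent.Helper31_Mob.Weg
import Pool.Agent.Helper65_Mob.Fvl

/-!
# Metal-insulator transport transition: all modules together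
-/

set_option autoImplicit false

namespace Pool.Agent.Mob

theorem gzbT : GzbStmt := H11.gzb
theorem wegT : WegStmt := H31.weg gzbT
theorem celT : CelStmt := H75.cel gzbT (H42.hol gzbT) wegT (H65.fvl gzbT) H32.ptw H25.shf
theorem annT : AnnStmt := H98.ann H94.ana H94.anb
theorem iniT : IniStmt := H5.ini celT annT
theorem decT : DecStmt := H85.dec H85.aff
theorem blkT : BlkStmt := H33.blk (H64.ret decT H58.geo)

theorem mainT.{u} : H42.MainStmt.{u} :=
  H42.main iniT blkT H32.lrg H58.edg H58.bdc H75.tbx (H6.sep wegT) H48.dcy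
    (H46.cmp (H98.dic H32.nrm) H48.cen) H28.tim

end Pool.Agent.Mob
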