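import Pool.Agent.Mob.Stmts2
import Pool.Agent.Helper42_Mob.Hol

/-!
# Module HL2: from the height `η` down to the real axis, in the square mean
-/

set_option autoImplicit false

open MeasureTheory

open scoped ENNReal BigOperators Interval

noncomputable section

namespace Pool.Agent.Mob.H42

open Pool.Agent.Anderson Pool.Agent.Loc Pool.Agent.Helper54.Bal Pool.Agent.Mob

/-- the boundary integral over the rectangle with the corners `z` and `w` -/
def bdry (z w : ℂ) (φ : ℂ → ℂ) : ℂ :=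
  (∫ x : ℝ in z.re..w.re, φ (x + z.im * Complex.I)) -
    (∫ x : ℝ in z.re..w.re, φ (x + w.im * Complex.I)) +
    Complex.I • (∫ y : ℝ in z.im..w.im, φ (w.re + y * Complex.I)) -
    Complex.I • (∫ y : ℝ in z.im..w.im, φ (z.re + y * Complex.I))

theorem im_part {a b r : ℝ} (hr : 0 < r) (hab : a ≤ b) (ha : -r ≤ a) (hb : b ≤ r) (s : ℝ)
    (hs : s = 1 ∨ s = -1) :
    (b - a) / (2 * r) ≤ s * (∫ y : ℝ in a..b, (((s * r : ℝ) : ℂ) + y * Complex.I)⁻¹).re := by
  have hne : ∀ y : ℝ, ((s * r : ℝ) : ℂ) + y * Complex.I ≠ 0 := by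
    intro y h
    have h1 := congrArg Complex.re h
    simp only [Complex.add_re, Complex.ofReal_re, Complex.mul_re, Complex.ofReal_im,
      Complex.I_re, Complex.I_im, Complex.zero_re] at h1
    rcases hs with rfl | rfl <;> nlinarith
  have hcont : Continuous fun y : ℝ => (((s * r : ℝ) : ℂ) + y * Complex.I)⁻¹ :=
    Continuous.inv₀ (by fun_prop) hne
  have h1 : (∫ y : ℝ in a..b, (((s * r : ℝ) : ℂ) + y * Complex.I)⁻¹).re =
      ∫ y : ℝ in a..b, ((((s * r : ℝ) : ℂ) + y * Complex.I)⁻¹).re := by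
    have := Complex.reCLM.intervalIntegral_comp_comm (hcont.intervalIntegrable (μ := volume) a b)
    exact this.symm
  rw [h1, ← intervalIntegral.integral_const_mul]
  have h2 : ∀ y ∈ Set.Icc a b, (2 * r)⁻¹ ≤ s * ((((s * r : ℝ) : ℂ) + y * Complex.I)⁻¹).re := by
    intro y hy
    rw [Complex.inv_re]
    have e1 : ((((s * r : ℝ) : ℂ) + y * Complex.I)).re = s * r := by simp
    have e2 : Complex.normSq ((((s * r : ℝ) : ℂ) + y * Complex.I)) = r ^ 2 + y ^ 2 := by
      rw [Complex.normSq_add_mul_I]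
      rcases hs with rfl | rfl <;> ring
    rw [e1, e2]
    have e3 : s * (s * r / (r ^ 2 + y ^ 2)) = r / (r ^ 2 + y ^ 2) := by
      rcases hs with rfl | rfl <;> ring
    rw [e3, le_div_iff₀ (by positivity), inv_mul_eq_div, div_le_iff₀ (by positivity)]
    have : y ^ 2 ≤ r ^ 2 := by
      apply sq_le_sq'
      · linarith [hy.1]
      · linarith [hy.2]
    nlinarith
  have h3 : ∫ y : ℝ in a..b, (2 * r)⁻¹ = (b - a) / (2 * r) := by
    rw [intervalIntegral.integral_const, smul_eq_mul, div_eq_mul_inv]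
  rw [← h3]
  apply intervalIntegral.integral_mono_on hab
  · exact intervalIntegrable_const
  · apply Continuous.intervalIntegrable
    exact continuous_const.mul (Complex.continuous_re.comp hcont)
  · exact h2

theorem im_part2 {a b t : ℝ} (ht : t ≠ 0) (hab : a ≤ b) (E : ℝ) :
    0 ≤ -(t * (∫ x : ℝ in a..b, ((x : ℂ) + t * Complex.I - E)⁻¹).im) := by
  have hne : ∀ x : ℝ, (x : ℂ) + t * Complex.I - E ≠ 0 := by
    intro y h
    have h1 := congrArg Complex.im h
    simp at h1
    exact ht h1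
  have hcont : Continuous fun x : ℝ => ((x : ℂ) + t * Complex.I - E)⁻¹ :=
    Continuous.inv₀ (by fun_prop) hne
  have h1 : (∫ x : ℝ in a..b, ((x : ℂ) + t * Complex.I - E)⁻¹).im =
      ∫ x : ℝ in a..b, (((x : ℂ) + t * Complex.I - E)⁻¹).im := by
    have := Complex.imCLM.intervalIntegral_comp_comm (hcont.intervalIntegrable (μ := volume) a b)
    exact this.symm
  rw [h1, ← intervalIntegral.integral_const_mul, ← intervalIntegral.integral_neg]
  apply intervalIntegral.integral_nonneg hab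
  intro x _
  rw [Complex.inv_im]
  have e1 : ((x : ℂ) + t * Complex.I - E).im = t := by simp
  rw [e1]
  have : -(t * (-t / Complex.normSq ((x : ℂ) + t * Complex.I - E))) =
      t ^ 2 / Complex.normSq ((x : ℂ) + t * Complex.I - E) := by ring
  rw [this]
  exact div_nonneg (sq_nonneg _) (Complex.normSq_nonneg _)

theorem rect_bound {f : ℂ → ℂ} {E r η B : ℝ} (hη : 0 < η) (hr : 8 * η ≤ r)
    (hf : ∀ z : ℂ, |z.re - E| ≤ r → η - r ≤ z.im → z.im ≤ η → DifferentiableAt ℂ f z)
    (hB : ∀ z : ℂ, |z.re - E| ≤ r → η - r ≤ z.im → z.im ≤ η →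
      (z.im = η - r ∨ |z.re - E| = r) → ‖f z‖ ≤ B) :
    ‖f E‖ ≤ 2 * ‖∫ x : ℝ in (E - r)..(E + r), f (x + η * Complex.I) *
      ((x : ℂ) + η * Complex.I - E)⁻¹‖ + 9 * B := by
  have hr0 : 0 < r := by linarith
  have hB0 : 0 ≤ B := by
    refine (norm_nonneg _).trans (hB ((E : ℂ) + ((η - r : ℝ) : ℂ) * Complex.I) ?_ ?_ ?_ ?_)
    · simp [hr0.le]
    · simp
    · simp; linarith
    · left; simp
  set z₀ : ℂ := ((E - r : ℝ) : ℂ) + ((η - r : ℝ) : ℂ) * Complex.I with hz₀
  set w₀ : ℂ := ((E + r : ℝ) : ℂ) + ((η : ℝ) : ℂ) * Complex.I with hw₀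
  have z1 : z₀.re = E - r := by rw [hz₀]; simp
  have z2 : z₀.im = η - r := by rw [hz₀]; simp
  have w1 : w₀.re = E + r := by rw [hw₀]; simp
  have w2 : w₀.im = η := by rw [hw₀]; simp
  have hreg : ∀ z ∈ [[z₀.re, w₀.re]] ×ℂ [[z₀.im, w₀.im]],
      |z.re - E| ≤ r ∧ η - r ≤ z.im ∧ z.im ≤ η := by
    intro z hz
    rw [z1, z2, w1, w2, Set.uIcc_of_le (by linarith), Set.uIcc_of_le (by linarith),
      Complex.mem_reProdIm, Set.mem_Icc, Set.mem_Icc] at hz
    exact ⟨abs_le.2 ⟨by linarith [hz.1.1], by linarith [hz.1.2]⟩, hz.2.1, hz.2.2⟩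
  have hEmem : [[z₀.re, w₀.re]] ×ℂ [[z₀.im, w₀.im]] ∈ nhds (E : ℂ) := by
    rw [z1, z2, w1, w2, Set.uIcc_of_le (by linarith), Set.uIcc_of_le (by linarith)]
    rw [mem_nhds_iff]
    refine ⟨Set.Ioo (E - r) (E + r) ×ℂ Set.Ioo (η - r) η, ?_, isOpen_Ioo.reProdIm isOpen_Ioo, ?_⟩
    · intro z hz
      rw [Complex.mem_reProdIm] at hz ⊢
      exact ⟨Set.Ioo_subset_Icc_self hz.1, Set.Ioo_subset_Icc_self hz.2⟩
    · rw [Complex.mem_reProdIm, Complex.ofReal_re, Complex.ofReal_im]
      constructor <;> constructor <;> linarith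
  have hds : DifferentiableOn ℂ (dslope f E) ([[z₀.re, w₀.re]] ×ℂ [[z₀.im, w₀.im]]) := by
    rw [Complex.differentiableOn_dslope hEmem]
    intro z hz
    obtain ⟨h1, h2, h3⟩ := hreg z hz
    exact (hf z h1 h2 h3).differentiableWithinAt
  have key := Complex.integral_boundary_rect_eq_zero_of_differentiableOn (dslope f E) z₀ w₀ hds
  rw [z1, z2, w1, w2] at key
  -- the four sides
  have sl : ∀ z : ℂ, z ≠ E → dslope f E z = f z * (z - E)⁻¹ - f E * (z - E)⁻¹ := by
    intro z hz
    rw [dslope_of_ne _ hz, slope_def_module, smul_eq_mul]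
    ring
  have side : ∀ (g : ℝ → ℂ) (a b : ℝ), a ≤ b → Continuous g →
      (∀ t ∈ Set.Icc a b, |(g t).re - E| ≤ r ∧ η - r ≤ (g t).im ∧ (g t).im ≤ η ∧ g t ≠ E) →
      ∫ t : ℝ in a..b, dslope f E (g t) = (∫ t : ℝ in a..b, f (g t) * (g t - E)⁻¹) -
        f E * ∫ t : ℝ in a..b, (g t - E)⁻¹ := by
    intro g a b hab hg hmem
    have c1 : ContinuousOn (fun t => (g t - E)⁻¹) (Set.uIcc a b) := by
      rw [Set.uIcc_of_le hab]
      apply ContinuousOn.inv₀ (by fun_prop)
      intro t ht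
      exact sub_ne_zero.2 (hmem t ht).2.2.2
    have c2 : ContinuousOn (fun t => f (g t)) (Set.uIcc a b) := by
      rw [Set.uIcc_of_le hab]
      intro t ht
      have h := hmem t ht
      exact ((hf (g t) h.1 h.2.1 h.2.2.1).continuousAt.comp hg.continuousAt).continuousWithinAt
    rw [← intervalIntegral.integral_const_mul, ← intervalIntegral.integral_sub]
    · apply intervalIntegral.integral_congr
      intro t ht
      rw [Set.uIcc_of_le hab] at ht
      exact sl _ (hmem t ht).2.2.2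
    · exact (c2.mul c1).intervalIntegrable
    · exact (continuousOn_const.mul c1).intervalIntegrable
  have s1 := side (fun x => (x : ℂ) + ((η - r : ℝ) : ℂ) * Complex.I) (E - r) (E + r)
    (by linarith) (by fun_prop) (by
      intro t ht
      refine ⟨?_, ?_, ?_, ?_⟩
      · simp only [Complex.add_re, Complex.ofReal_re, Complex.mul_re, Complex.ofReal_im,
          Complex.I_re, Complex.I_im]
        rw [abs_le]
        constructor <;> linarith [ht.1, ht.2]
      · simp
      · simp; linarith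
      · intro h
        have := congrArg Complex.im h
        simp at this
        linarith)
  have s2 := side (fun x => (x : ℂ) + (η : ℂ) * Complex.I) (E - r) (E + r)
    (by linarith) (by fun_prop) (by
      intro t ht
      refine ⟨?_, ?_, ?_, ?_⟩
      · simp only [Complex.add_re, Complex.ofReal_re, Complex.mul_re, Complex.ofReal_im,
          Complex.I_re, Complex.I_im]
        rw [abs_le]
        constructor <;> linarith [ht.1, ht.2]
      · simp; linarith
      · simp
      · intro h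
        have := congrArg Complex.im h
        simp at this
        linarith)
  have s3 := side (fun y => ((E + r : ℝ) : ℂ) + (y : ℂ) * Complex.I) (η - r) η
    (by linarith) (by fun_prop) (by
      intro t ht
      refine ⟨?_, ?_, ?_, ?_⟩
      · simp [abs_of_pos hr0]
      · simpa using ht.1
      · simpa using ht.2
      · intro h
        have := congrArg Complex.re h
        simp at this
        linarith)
  have s4 := side (fun y => ((E - r : ℝ) : ℂ) + (y : ℂ) * Complex.I) (η - r) η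
    (by linarith) (by fun_prop) (by
      intro t ht
      refine ⟨?_, ?_, ?_, ?_⟩
      · simp [abs_of_pos hr0]
      · simpa using ht.1
      · simpa using ht.2
      · intro h
        have := congrArg Complex.re h
        simp at this
        linarith)
  beta_reduce at s1 s2 s3 s4
  rw [s1, s2, s3, s4] at key
  obtain ⟨A1, hA1⟩ : ∃ A : ℂ, A = ∫ x : ℝ in (E - r)..(E + r),
    f ((x : ℂ) + ((η - r : ℝ) : ℂ) * Complex.I) *
      ((x : ℂ) + ((η - r : ℝ) : ℂ) * Complex.I - E)⁻¹ := ⟨_, rfl⟩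
  obtain ⟨A2, hA2⟩ : ∃ A : ℂ, A = ∫ x : ℝ in (E - r)..(E + r),
    f ((x : ℂ) + (η : ℂ) * Complex.I) * ((x : ℂ) + (η : ℂ) * Complex.I - E)⁻¹ := ⟨_, rfl⟩
  obtain ⟨A3, hA3⟩ : ∃ A : ℂ, A = ∫ y : ℝ in (η - r)..η,
    f (((E + r : ℝ) : ℂ) + (y : ℂ) * Complex.I) *
      (((E + r : ℝ) : ℂ) + (y : ℂ) * Complex.I - E)⁻¹ := ⟨_, rfl⟩
  obtain ⟨A4, hA4⟩ : ∃ A : ℂ, A = ∫ y : ℝ in (η - r)..η,
    f (((E - r : ℝ) : ℂ) + (y : ℂ) * Complex.I) *
      (((E - r : ℝ) : ℂ) + (y : ℂ) * Complex.I - E)⁻¹ := ⟨_, rfl⟩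
  obtain ⟨B1, hB1⟩ : ∃ A : ℂ, A = ∫ x : ℝ in (E - r)..(E + r),
      ((x : ℂ) + ((η - r : ℝ) : ℂ) * Complex.I - E)⁻¹ := ⟨_, rfl⟩
  obtain ⟨B2, hB2⟩ : ∃ A : ℂ, A = ∫ x : ℝ in (E - r)..(E + r),
      ((x : ℂ) + (η : ℂ) * Complex.I - E)⁻¹ := ⟨_, rfl⟩
  obtain ⟨B3, hB3⟩ : ∃ A : ℂ, A = ∫ y : ℝ in (η - r)..η,
      (((E + r : ℝ) : ℂ) + (y : ℂ) * Complex.I - E)⁻¹ := ⟨_, rfl⟩
  obtain ⟨B4, hB4⟩ : ∃ A : ℂ, A = ∫ y : ℝ in (η - r)..η,
      (((E - r : ℝ) : ℂ) + (y : ℂ) * Complex.I - E)⁻¹ := ⟨_, rfl⟩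
  rw [← hA1, ← hA2, ← hA3, ← hA4, ← hB1, ← hB2, ← hB3, ← hB4] at key
  have key2 : f E * (B1 - B2 + Complex.I * B3 - Complex.I * B4) =
      A1 - A2 + Complex.I * A3 - Complex.I * A4 := by
    simp only [smul_eq_mul] at key
    linear_combination -key
  -- the winding number
  have hB1' : 0 ≤ B1.im := by
    have h := im_part2 (a := E - r) (b := E + r) (t := η - r) (by
      have : η < r := by linarith
      exact (sub_neg.2 this).ne) (by linarith) E
    rw [← hB1] at h
    have h5 : η - r < 0 := by linarith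
    by_contra hcon
    rw [not_le] at hcon
    have := mul_pos_of_neg_of_neg h5 hcon
    linarith
  have hB2' : B2.im ≤ 0 := by
    have h := im_part2 (a := E - r) (b := E + r) (t := η) hη.ne' (by linarith) E
    rw [← hB2] at h
    by_contra hcon
    rw [not_le] at hcon
    have := mul_pos hη hcon
    linarith
  have hB3' : 1 / 2 ≤ B3.re := by
    have h := im_part (a := η - r) (b := η) hr0 (by linarith) (by linarith) (by linarith) 1
      (Or.inl rfl)
    have e : (∫ y : ℝ in (η - r)..η, (((1 * r : ℝ) : ℂ) + y * Complex.I)⁻¹) = B3 := by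
      rw [hB3]
      congr 1
      funext y
      congr 1
      push_cast
      ring
    rw [e] at h
    have e2 : (η - (η - r)) / (2 * r) = 1 / 2 := by
      field_simp
      ring
    rw [e2] at h
    linarith
  have hB4' : B4.re ≤ -(1 / 2) := by
    have h := im_part (a := η - r) (b := η) hr0 (by linarith) (by linarith) (by linarith) (-1)
      (Or.inr rfl)
    have e : (∫ y : ℝ in (η - r)..η, (((-1 * r : ℝ) : ℂ) + y * Complex.I)⁻¹) = B4 := by
      rw [hB4]
      congr 1
      funext y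
      congr 1
      push_cast
      ring
    rw [e] at h
    have e2 : (η - (η - r)) / (2 * r) = 1 / 2 := by
      field_simp
      ring
    rw [e2] at h
    linarith
  have hwind : 1 ≤ ‖B1 - B2 + Complex.I * B3 - Complex.I * B4‖ := by
    refine le_trans ?_ (Complex.abs_im_le_norm _)
    refine le_trans ?_ (le_abs_self _)
    simp only [Complex.add_im, Complex.sub_im, Complex.mul_im, Complex.I_re, Complex.I_im,
      zero_mul, one_mul, zero_add]
    linarith
  -- the sides
  have hinv : ∀ (z : ℂ) (c : ℝ), 0 < c → c ≤ ‖z - E‖ → ‖(z - E)⁻¹‖ ≤ c⁻¹ := by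
    intro z c hc h
    rw [norm_inv]
    exact inv_anti₀ hc h
  have n1 : ‖A1‖ ≤ 16 / 7 * B := by
    have h : ∀ x ∈ Set.uIoc (E - r) (E + r), ‖f ((x : ℂ) + ((η - r : ℝ) : ℂ) * Complex.I) *
        ((x : ℂ) + ((η - r : ℝ) : ℂ) * Complex.I - E)⁻¹‖ ≤ B * (7 / 8 * r)⁻¹ := by
      intro x hx
      rw [Set.uIoc_of_le (by linarith)] at hx
      rw [norm_mul]
      refine mul_le_mul (hB _ ?_ ?_ ?_ (Or.inl ?_)) (hinv _ _ (by positivity) ?_)
        (norm_nonneg _) hB0
      · simp only [Complex.add_re, Complex.ofReal_re, Complex.mul_re, Complex.ofReal_im,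
          Complex.I_re, Complex.I_im]
        rw [abs_le]
        constructor <;> linarith [hx.1, hx.2]
      · simp
      · simp; linarith
      · simp
      · refine le_trans ?_ (Complex.abs_im_le_norm _)
        have : (((x : ℂ) + ((η - r : ℝ) : ℂ) * Complex.I - E)).im = η - r := by simp
        rw [this, abs_of_neg (by linarith)]
        linarith
    have h2 := intervalIntegral.norm_integral_le_of_norm_le_const h
    rw [← hA1] at h2
    refine h2.trans (le_of_eq ?_)
    rw [show E + r - (E - r) = 2 * r by ring, abs_of_pos (by positivity)]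
    field_simp
    ring
  have n3 : ‖A3‖ ≤ B := by
    have h : ∀ y ∈ Set.uIoc (η - r) η, ‖f (((E + r : ℝ) : ℂ) + (y : ℂ) * Complex.I) *
        (((E + r : ℝ) : ℂ) + (y : ℂ) * Complex.I - E)⁻¹‖ ≤ B * r⁻¹ := by
      intro x hx
      rw [Set.uIoc_of_le (by linarith)] at hx
      rw [norm_mul]
      refine mul_le_mul (hB _ ?_ ?_ ?_ (Or.inr ?_)) (hinv _ _ (by positivity) ?_)
        (norm_nonneg _) hB0
      · simp [abs_of_pos hr0]
      · simpa using hx.1.le
      · simpa using hx.2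
      · simp [abs_of_pos hr0]
      · refine le_trans ?_ (Complex.abs_re_le_norm _)
        have : (((E + r : ℝ) : ℂ) + (x : ℂ) * Complex.I - E).re = r := by simp
        rw [this, abs_of_pos hr0]
    have h2 := intervalIntegral.norm_integral_le_of_norm_le_const h
    rw [← hA3] at h2
    refine h2.trans (le_of_eq ?_)
    rw [show η - (η - r) = r by ring, abs_of_pos (by positivity)]
    field_simp
  have n4 : ‖A4‖ ≤ B := by
    have h : ∀ y ∈ Set.uIoc (η - r) η, ‖f (((E - r : ℝ) : ℂ) + (y : ℂ) * Complex.I) *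
        (((E - r : ℝ) : ℂ) + (y : ℂ) * Complex.I - E)⁻¹‖ ≤ B * r⁻¹ := by
      intro x hx
      rw [Set.uIoc_of_le (by linarith)] at hx
      rw [norm_mul]
      refine mul_le_mul (hB _ ?_ ?_ ?_ (Or.inr ?_)) (hinv _ _ (by positivity) ?_)
        (norm_nonneg _) hB0
      · simp [abs_of_pos hr0]
      · simpa using hx.1.le
      · simpa using hx.2
      · simp [abs_of_pos hr0]
      · refine le_trans ?_ (Complex.abs_re_le_norm _)
        have : (((E - r : ℝ) : ℂ) + (x : ℂ) * Complex.I - E).re = -r := by simp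
        rw [this, abs_neg, abs_of_pos hr0]
    have h2 := intervalIntegral.norm_integral_le_of_norm_le_const h
    rw [← hA4] at h2
    refine h2.trans (le_of_eq ?_)
    rw [show η - (η - r) = r by ring, abs_of_pos (by positivity)]
    field_simp
  have h5 : ‖f E‖ ≤ ‖A1 - A2 + Complex.I * A3 - Complex.I * A4‖ := by
    rw [← key2, norm_mul]
    exact le_mul_of_one_le_right (norm_nonneg _) hwind
  have h6 : ‖A1 - A2 + Complex.I * A3 - Complex.I * A4‖ ≤ ‖A1‖ + ‖A2‖ + ‖A3‖ + ‖A4‖ := by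
    have t1 := norm_sub_le (A1 - A2 + Complex.I * A3) (Complex.I * A4)
    have t2 := norm_add_le (A1 - A2) (Complex.I * A3)
    have t3 := norm_sub_le A1 A2
    rw [norm_mul, Complex.norm_I, one_mul] at t1 t2
    linarith
  rw [← hA2]
  have := norm_nonneg A2
  linarith

/-- the integral of the square of the Cauchy kernel -/
theorem kernel_int {E r η : ℝ} (hη : 0 < η) (hr : 0 < r) :
    ∫⁻ x in Set.Ioc (E - r) (E + r), ‖((x : ℂ) + η * Complex.I - E)⁻¹‖ₑ ^ (2 : ℝ) ≤
      ENNReal.ofReal (Real.pi / η) := by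
  have h1 : ∀ x : ℝ, ‖((x : ℂ) + η * Complex.I - E)⁻¹‖ₑ ^ (2 : ℝ) =
      ENNReal.ofReal (η⁻¹ * (η⁻¹ * (1 + (η⁻¹ * (x - E)) ^ 2)⁻¹)) := by
    intro x
    have e0 : ‖((x : ℂ) + η * Complex.I - E)‖ ^ 2 = (x - E) ^ 2 + η ^ 2 := by
      rw [← Complex.normSq_eq_norm_sq, Complex.normSq_apply]
      simp
      ring
    rw [← ofReal_norm, ENNReal.ofReal_rpow_of_nonneg (norm_nonneg _) (by norm_num)]
    congr 1
    rw [norm_inv, Real.inv_rpow (norm_nonneg _)]
    have e1 : ‖((x : ℂ) + η * Complex.I - E)‖ ^ (2 : ℝ) = (x - E) ^ 2 + η ^ 2 := by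
      rw [← e0]
      exact Real.rpow_natCast _ 2
    rw [e1]
    have e2 : (x - E) ^ 2 + η ^ 2 ≠ 0 := by positivity
    have e3 : (1 + (η⁻¹ * (x - E)) ^ 2) ≠ 0 := by positivity
    field_simp
    ring
  simp only [h1]
  rw [← ofReal_integral_eq_lintegral_ofReal]
  · apply ENNReal.ofReal_le_ofReal
    rw [← intervalIntegral.integral_of_le (by linarith), intervalIntegral.integral_const_mul]
    have e1 : ∫ x in (E - r)..(E + r), η⁻¹ * (1 + (η⁻¹ * (x - E)) ^ 2)⁻¹ =
        Real.arctan (η⁻¹ * r) - Real.arctan (η⁻¹ * -r) := by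
      have hd : ∀ x ∈ Set.uIcc (E - r) (E + r), HasDerivAt
          (fun x => Real.arctan (η⁻¹ * (x - E))) (η⁻¹ * (1 + (η⁻¹ * (x - E)) ^ 2)⁻¹) x := by
        intro x _
        have h2 : HasDerivAt (fun x : ℝ => η⁻¹ * (x - E)) η⁻¹ x := by
          have := ((hasDerivAt_id x).sub_const E).const_mul η⁻¹
          simpa using this
        have h3 := h2.arctan
        have h4 : 1 / (1 + (η⁻¹ * (x - E)) ^ 2) * η⁻¹ = η⁻¹ * (1 + (η⁻¹ * (x - E)) ^ 2)⁻¹ := by
          rw [one_div]; ring
        rw [h4] at h3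
        exact h3
      rw [intervalIntegral.integral_eq_sub_of_hasDerivAt hd]
      · congr 2 <;> ring
      · apply Continuous.intervalIntegrable
        exact continuous_const.mul (Continuous.inv₀ (by fun_prop) (fun x => by positivity))
    rw [e1]
    have h2 := Real.arctan_lt_pi_div_two (η⁻¹ * r)
    have h3 := Real.neg_pi_div_two_lt_arctan (η⁻¹ * -r)
    have h4 : 0 < η⁻¹ := by positivity
    rw [div_eq_mul_inv, mul_comm Real.pi]
    exact mul_le_mul_of_nonneg_left (by linarith) h4.le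
  · apply Continuous.integrableOn_Ioc
    exact continuous_const.mul
      (continuous_const.mul (Continuous.inv₀ (by fun_prop) (fun x => by positivity)))
  · filter_upwards with x
    show (0 : ℝ) ≤ _
    positivity

theorem hl2 (hgzb : GzbStmt) : Hl2Stmt := by
  refine ⟨1458, by norm_num, ?_⟩
  intro d V Λ x y E r η hη hr hno
  have hr0 : 0 < r := by linarith
  have hrne : r ≠ 0 := hr0.ne'
  obtain ⟨g1, -, g3⟩ := hgzb d V Λ x y
  set M : ℝ := r / (4 * η) with hM
  have hM0 : 0 < M := by positivity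
  have hMη : M * (4 * (η / r)) = 1 := by
    rw [hM]; field_simp
  have hηr : η / r ≤ 1 / 8 := by
    rw [div_le_iff₀ hr0]; linarith
  have hηr0 : 0 < η / r := by positivity
  have hMη2 : M * (η / r) ^ 2 ≤ 1 / 32 := by
    have : M * (η / r) ^ 2 = (M * (4 * (η / r))) * ((η / r) / 4) := by ring
    rw [this, hMη]
    linarith
  -- the weight on the top side
  have wtop : ∀ F : ℝ, ‖wt E r M ((F : ℂ) + η * Complex.I)‖ ≤ 3 := by
    intro F
    rw [norm_wt E r M hrne]
    apply exp_le_three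
    have e1 : ((F : ℂ) + η * Complex.I).im = η := by simp
    rw [e1]
    have : 0 ≤ M * ((((F : ℂ) + η * Complex.I).re - E) / r) ^ 2 := by positivity
    nlinarith
  obtain ⟨B, hBd⟩ : ∃ B : ℝ, B = 3 / r * Real.exp (-r / (4 * η)) := ⟨_, rfl⟩
  have hB0 : 0 ≤ B := by rw [hBd]; positivity
  have main := rect_bound (f := fun z => gz V Λ z x y * wt E r M z) (E := E) (r := r) (η := η)
    (B := B) hη hr
    (by
      intro z h1 _ _
      have h2 := (g3 E r hr0 hno z h1).2.2
      have h3 : DifferentiableAt ℂ (wt E r M) z := by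
        unfold wt
        fun_prop
      exact h2.mul h3)
    (by
      intro z m1 m2 m3 hor
      rw [norm_mul, norm_wt E r M hrne]
      set s : ℝ := (z.re - E) / r with hs
      set t : ℝ := z.im / r with ht
      have ht1 : t ≤ η / r := div_le_div_of_nonneg_right m3 hr0.le
      have h1 := (g3 E r hr0 hno z m1).2.1
      have h2 : -M * (s ^ 2 - t ^ 2 - 4 * t) ≤ -M + (1 + 1 / 32) := by
        rcases hor with hbot | h6
        · have e2 : t = η / r - 1 := by rw [ht, hbot, sub_div, div_self hrne]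
          have h3 : 1 ≤ -t ^ 2 - 4 * t := by
            rw [e2]
            nlinarith
          have h4 : 0 ≤ M * s ^ 2 := by positivity
          nlinarith
        · have hs1 : s ^ 2 = 1 := by
            rw [hs, div_pow, ← sq_abs, h6]
            field_simp
          rw [hs1]
          rcases le_total t 0 with h0 | h0
          · have h7 : η / r - 1 ≤ t := by
              rw [ht, div_sub_one hrne]
              exact div_le_div_of_nonneg_right m2 hr0.le
            have h5 : 0 ≤ -t ^ 2 - 4 * t := by nlinarith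
            nlinarith
          · have h5 : M * t ^ 2 ≤ M * (η / r) ^ 2 :=
              mul_le_mul_of_nonneg_left (pow_le_pow_left₀ h0 ht1 2) hM0.le
            have h6 : M * (4 * t) ≤ M * (4 * (η / r)) :=
              mul_le_mul_of_nonneg_left (by linarith) hM0.le
            nlinarith
      have h3 : Real.exp (-M * (s ^ 2 - t ^ 2 - 4 * t)) ≤ 3 * Real.exp (-r / (4 * η)) := by
        have e3 : -r / (4 * η) = -M := by rw [hM, neg_div]
        rw [e3]
        calc _ ≤ Real.exp (-M + (1 + 1 / 32)) := Real.exp_le_exp.2 h2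
          _ = Real.exp (1 + 1 / 32) * Real.exp (-M) := by rw [← Real.exp_add]; congr 1; ring
          _ ≤ _ := mul_le_mul_of_nonneg_right (exp_le_three le_rfl) (Real.exp_pos _).le
      calc _ ≤ r⁻¹ * (3 * Real.exp (-r / (4 * η))) :=
            mul_le_mul h1 h3 (Real.exp_pos _).le (by positivity)
        _ = B := by rw [hBd]; ring)
  obtain ⟨A, hA⟩ : ∃ A : ℂ, A = ∫ x' : ℝ in (E - r)..(E + r),
    gz V Λ ((x' : ℂ) + η * Complex.I) x y * wt E r M ((x' : ℂ) + η * Complex.I) *
      ((x' : ℂ) + η * Complex.I - E)⁻¹ := ⟨_, rfl⟩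
  have main2 : |gr V Λ E x y| ≤ 2 * ‖A‖ + 9 * B := by
    rw [hA]
    have e : ‖gz V Λ (E : ℂ) x y * wt E r M (E : ℂ)‖ = |gr V Λ E x y| := by
      rw [norm_mul, norm_wt E r M hrne, g1 E, Complex.norm_real, Real.norm_eq_abs,
        Complex.ofReal_re, Complex.ofReal_im]
      simp
    rw [← e]
    exact main
  -- the top side
  obtain ⟨I, hI⟩ : ∃ I : ℝ≥0∞, I = ∫⁻ F in Set.Icc (E - r) (E + r),
    ENNReal.ofReal (‖gz V Λ (zz η F) x y‖ ^ 2) := ⟨_, rfl⟩
  have top : ENNReal.ofReal (‖A‖ ^ 2) ≤ 9 * (ENNReal.ofReal (Real.pi / η) * I) := by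
    have t1 : ‖A‖ₑ ≤ ∫⁻ x' in Set.Ioc (E - r) (E + r),
        (3 * ‖gz V Λ ((x' : ℂ) + η * Complex.I) x y‖ₑ) * ‖((x' : ℂ) + η * Complex.I - E)⁻¹‖ₑ := by
      rw [hA, intervalIntegral.integral_of_le (by linarith)]
      refine (enorm_integral_le_lintegral_enorm _).trans ?_
      apply lintegral_mono
      intro x'
      beta_reduce
      rw [enorm_mul, enorm_mul]
      refine mul_le_mul' ?_ le_rfl
      rw [mul_comm]
      refine mul_le_mul' ?_ le_rfl
      rw [← ofReal_norm]
      refine (ENNReal.ofReal_le_ofReal (wtop x')).trans_eq ?_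
      norm_num
    have hmeas : ∀ z : ℝ, |z - E| ≤ r → ContinuousAt
        (fun x' : ℝ => gz V Λ ((x' : ℂ) + η * Complex.I) x y) z := by
      intro z hz
      have h1 := (g3 E r hr0 hno ((z : ℂ) + η * Complex.I) (by simpa using hz)).2.2.continuousAt
      have h2 : ContinuousAt (fun x' : ℝ => (x' : ℂ) + η * Complex.I) z := by fun_prop
      exact ContinuousAt.comp (g := fun w : ℂ => gz V Λ w x y) h1 h2
    have hm1 : AEMeasurable (fun x' : ℝ => 3 * ‖gz V Λ ((x' : ℂ) + η * Complex.I) x y‖ₑ)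
        (volume.restrict (Set.Ioc (E - r) (E + r))) := by
      apply AEMeasurable.const_mul
      apply AEMeasurable.enorm
      apply ContinuousOn.aemeasurable _ measurableSet_Ioc
      intro z hz
      exact (hmeas z (abs_le.2 ⟨by linarith [hz.1], by linarith [hz.2]⟩)).continuousWithinAt
    have hm2 : AEMeasurable (fun x' : ℝ => ‖((x' : ℂ) + η * Complex.I - E)⁻¹‖ₑ)
        (volume.restrict (Set.Ioc (E - r) (E + r))) := by
      apply AEMeasurable.enorm
      apply Measurable.aemeasurable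
      apply Continuous.measurable
      apply Continuous.inv₀ (by fun_prop)
      intro z h
      have h1 := congrArg Complex.im h
      simp at h1
      exact hη.ne' h1
    have t2 := ENNReal.lintegral_mul_le_Lp_mul_Lq (volume.restrict (Set.Ioc (E - r) (E + r)))
      Real.HolderConjugate.two_two hm1 hm2
    have t3 : ‖A‖ₑ ^ (2 : ℝ) ≤
        (∫⁻ x' in Set.Ioc (E - r) (E + r),
          (3 * ‖gz V Λ ((x' : ℂ) + η * Complex.I) x y‖ₑ) ^ (2 : ℝ)) *
        (∫⁻ x' in Set.Ioc (E - r) (E + r), ‖((x' : ℂ) + η * Complex.I - E)⁻¹‖ₑ ^ (2 : ℝ)) := by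
      have := ENNReal.rpow_le_rpow (t1.trans t2) (show (0 : ℝ) ≤ 2 by norm_num)
      rw [ENNReal.mul_rpow_of_nonneg _ _ (by norm_num : (0 : ℝ) ≤ 2), ← ENNReal.rpow_mul,
        ← ENNReal.rpow_mul] at this
      norm_num at this
      exact_mod_cast this
    have t4 : ∫⁻ x' in Set.Ioc (E - r) (E + r),
        (3 * ‖gz V Λ ((x' : ℂ) + η * Complex.I) x y‖ₑ) ^ (2 : ℝ) ≤ 9 * I := by
      have e1 : ∀ x' : ℝ, (3 * ‖gz V Λ ((x' : ℂ) + η * Complex.I) x y‖ₑ) ^ (2 : ℝ) =
          9 * ENNReal.ofReal (‖gz V Λ (zz η x') x y‖ ^ 2) := by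
        intro x'
        rw [ENNReal.mul_rpow_of_nonneg _ _ (by norm_num : (0 : ℝ) ≤ 2)]
        congr 1
        · rw [ENNReal.rpow_two]; norm_num
        · rw [ENNReal.rpow_two, ← ofReal_norm, ← ENNReal.ofReal_pow (norm_nonneg _)]
          rfl
      simp only [e1]
      rw [lintegral_const_mul' _ _ (by norm_num), hI]
      exact mul_le_mul' le_rfl (lintegral_mono_set Set.Ioc_subset_Icc_self)
    have e2 : ENNReal.ofReal (‖A‖ ^ 2) = ‖A‖ₑ ^ (2 : ℝ) := by
      rw [ENNReal.rpow_two, ← ofReal_norm, ← ENNReal.ofReal_pow (norm_nonneg _)]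
    rw [e2]
    refine t3.trans ((mul_le_mul' t4 (kernel_int hη hr0)).trans_eq ?_)
    ring
  have hfin : ENNReal.ofReal (|gr V Λ E x y| ^ 2) ≤
      8 * ENNReal.ofReal (‖A‖ ^ 2) + ENNReal.ofReal (162 * B ^ 2) := by
    have e8 : (8 : ℝ≥0∞) = ENNReal.ofReal 8 := by norm_num
    rw [e8, ← ENNReal.ofReal_mul (by norm_num), ← ENNReal.ofReal_add (by positivity)
      (by positivity)]
    apply ENNReal.ofReal_le_ofReal
    have h1 : |gr V Λ E x y| ^ 2 ≤ (2 * ‖A‖ + 9 * B) ^ 2 :=
      pow_le_pow_left₀ (abs_nonneg _) main2 2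
    nlinarith [sq_nonneg (2 * ‖A‖ - 9 * B)]
  refine hfin.trans ?_
  rw [← hI]
  refine add_le_add ?_ ?_
  · calc 8 * ENNReal.ofReal (‖A‖ ^ 2) ≤ 8 * (9 * (ENNReal.ofReal (Real.pi / η) * I)) :=
          mul_le_mul' le_rfl top
      _ = (72 * ENNReal.ofReal (Real.pi / η)) * I := by ring
      _ ≤ ENNReal.ofReal (1458 / η) * I := by
          refine mul_le_mul' ?_ le_rfl
          have e72 : (72 : ℝ≥0∞) = ENNReal.ofReal 72 := by norm_num
          rw [e72, ← ENNReal.ofReal_mul (by norm_num)]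
          apply ENNReal.ofReal_le_ofReal
          rw [← mul_div_assoc]
          apply div_le_div_of_nonneg_right _ hη.le
          have := Real.pi_lt_four
          linarith
  · apply ENNReal.ofReal_le_ofReal
    rw [hBd, mul_pow, div_pow, ← Real.exp_nat_mul]
    have e1 : ((2 : ℕ) : ℝ) * (-r / (4 * η)) = -r / (2 * η) := by
      push_cast
      field_simp
      ring
    rw [e1]
    apply le_of_eq
    ring

end Pool.Agent.Mob.H42
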