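import Pool.Agent.Helper42_Mob.Ass
import Pool.Agent.Helper42_Mob.Fin2
import Pool.Agent.Helper42_Mob.Hl2
import Pool.Agent.Helper65_Mob.Fv2
import Pool.Agent.Helper81_Mob.Ce2
import Pool.Agent.Helper21_Mob.Kst
import Pool.Agent.Helper29_Mob.Ce3
import Pool.Agent.Helper17_Mob.In2

/-!
# Metal-insulator transport transition: the second version
-/

set_option autoImplicit false

namespace Pool.Agent.Mob

theorem hl2T : Hl2Stmt := H42.hl2 gzbT
theorem fv2T : Fv2Stmt := H65.fv2 gzbT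
theorem ce2T : Ce2Stmt := H81.ce2 hl2T fv2T wegT H25.shf
theorem ce3T : Ce3Stmt := H29.ce3 ce2T H21.kst
theorem in2T : In2Stmt := H17.in2 ce3T annT

theorem main2T.{u} : H42.MainStmt2.{u} :=
  H42.main2 in2T blkT H32.lrg H58.edg H58.bdc H75.tbx (H6.sep wegT) H48.dcy
    (H46.cmp (H98.dic H32.nrm) H48.cen) H28.tim

end Pool.Agent.Mob
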